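import Pool.Agent.W_MP_315f31_lc.C.StmtFO

set_option autoImplicit false

/-!
# MP_3b51b4_gt : `MA_ℵ₁` and the Open Colouring Axiom in a structure `(T, E)`

`E x y` is read `x ∈ y`.  The elementary notions (`Sub`, `IsOmega`, `App f x y` : `(x, y) ∈ f`, `Maps`,
`Cov b a` : some function with domain `b` has `a` as a subset of its range, `IsCtb` : countable, `IsOm1` : `ω₁`)
are those of `Pool/Agent/W_MP_83aea7_lc/Defs.lean`, `Pool/Agent/W_MP_315f31_lc/C/Card.lean` and
`Pool/Agent/W_MP_315f31_lc/Stmt.lean`.
-/

namespace MAO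
open HESR DCM
universe u

section defs
variable {T : Type u} (E : T → T → Prop)

/-- `(Y, R)` is a forcing notion: `Y` is a nonempty set and `R` is a preorder on `Y`; `App E R x y` is
`x ≤ y` (`x` is stronger than `y`) -/
def IsPos (Y R : T) : Prop :=
  (∃ x, E x Y) ∧ (∀ x, E x Y → App E R x x) ∧
    ∀ x y z, E x Y → E y Y → E z Y → App E R x y → App E R y z → App E R x z

/-- `x` and `y` are compatible in `(Y, R)` -/
def Cmp (Y R x y : T) : Prop := ∃ z, E z Y ∧ App E R z x ∧ App E R z y

/-- the countable chain condition: every set of pairwise incompatible elements is countable -/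
def CCC (Y R : T) : Prop :=
  ∀ A, Sub E A Y → (∀ x y, E x A → E y A → x ≠ y → ¬ Cmp E Y R x y) → IsCtb E A

/-- `D` is a dense subset of `(Y, R)` -/
def IsDns (Y R D : T) : Prop := Sub E D Y ∧ ∀ x, E x Y → ∃ y, E y D ∧ App E R y x

/-- `G` is a filter on `(Y, R)` -/
def IsFlt (Y R G : T) : Prop :=
  Sub E G Y ∧ (∃ x, E x G) ∧ (∀ x y, E x G → E y Y → App E R x y → E y G) ∧
    ∀ x y, E x G → E y G → ∃ z, E z G ∧ App E R z x ∧ App E R z y

/-- Martin's axiom for `ℵ₁` dense sets: for every forcing notion with the countable chain condition and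
every set `F` of at most `ℵ₁` dense subsets, some filter meets all elements of `F` -/
def MA1 : Prop :=
  ∀ w1 Y R F, IsOm1 E w1 → IsPos E Y R → CCC E Y R → Cov E w1 F → (∀ D, E D F → IsDns E Y R D) →
    ∃ G, IsFlt E Y R G ∧ ∀ D, E D F → ∃ x, E x G ∧ E x D

/-- `x` and `y` have the same elements in `n` -/
def Agr (n x y : T) : Prop := ∀ z, E z n → (E z x ↔ E z y)

/-- `G` is an open graph on the set `X` of subsets of `w = ω`: the relation `G` on `X` is symmetric, and with a
pair `(x, y)` it contains all pairs `(x', y')` of elements of `X` with `x' ∩ n = x ∩ n`, `y' ∩ n = y ∩ n` for some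
natural number `n` -/
def IsOG (w X G : T) : Prop :=
  ∀ x y, E x X → E y X → App E G x y → App E G y x ∧
    ∃ n, E n w ∧ ∀ x' y', E x' X → E y' X → Agr E n x x' → Agr E n y y' → App E G x' y'

/-- the Open Colouring Axiom: for every open graph `G` on a set `X` of reals (subsets of `ω`), either there is
an uncountable `A ⊆ X` such that any two distinct elements of `A` are connected, or `X` is the union of countably many
sets (given by a function from `X` to `ω`) such that no two distinct elements of one of these sets are connected -/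
def OCA : Prop :=
  ∀ w X G, IsOmega E w → (∀ x, E x X → Sub E x w) → IsOG E w X G →
    (∃ A, Sub E A X ∧ ¬ IsCtb E A ∧ ∀ x y, E x A → E y A → x ≠ y → App E G x y) ∨
      ∃ c, Maps E c X w ∧ ∀ x y n, App E c x n → App E c y n → x ≠ y → ¬ App E G x y

end defs

/-! ### The notions are uniformly first-order -/

section fo
variable {k : ℕ}

theorem IsPos.fo (a b : Fin k) : FO.{u} (fun _ E v => IsPos E (v a) (v b)) := by
  unfold IsPos; (repeat' (first | exact App.fo _ _ _ | exact FO.mem _ _ | apply FO.and | apply FO.imp | apply FO.ex | apply FO.all))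

theorem Cmp.fo (a b c d : Fin k) : FO.{u} (fun _ E v => Cmp E (v a) (v b) (v c) (v d)) := by
  unfold Cmp; (repeat' (first | exact App.fo _ _ _ | exact FO.mem _ _ | apply FO.and | apply FO.imp | apply FO.ex | apply FO.all))

theorem CCC.fo (a b : Fin k) : FO.{u} (fun _ E v => CCC E (v a) (v b)) := by
  unfold CCC; (repeat' (first | exact Cmp.fo _ _ _ _ | exact IsCtb.fo _ | exact Sub.fo _ _ | exact FO.mem _ _ | exact FO.eq _ _ | apply FO.not | apply FO.and | apply FO.imp | apply FO.ex | apply FO.all))

theorem IsDns.fo (a b c : Fin k) : FO.{u} (fun _ E v => IsDns E (v a) (v b) (v c)) := by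
  unfold IsDns; (repeat' (first | exact App.fo _ _ _ | exact Sub.fo _ _ | exact FO.mem _ _ | apply FO.and | apply FO.imp | apply FO.ex | apply FO.all))

theorem IsFlt.fo (a b c : Fin k) : FO.{u} (fun _ E v => IsFlt E (v a) (v b) (v c)) := by
  unfold IsFlt; (repeat' (first | exact App.fo _ _ _ | exact Sub.fo _ _ | exact FO.mem _ _ | apply FO.and | apply FO.imp | apply FO.ex | apply FO.all))

theorem MA1.fo : FO.{u} (fun _ E (_ : Fin k → _) => MA1 E) := by
  unfold MA1; (repeat' (first | exact IsOm1.fo _ | exact IsPos.fo _ _ | exact CCC.fo _ _ | exact Cov.fo _ _ | exact IsDns.fo _ _ _ | exact IsFlt.fo _ _ _ | exact FO.mem _ _ | apply FO.and | apply FO.imp | apply FO.ex | apply FO.all))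

theorem Agr.fo (a b c : Fin k) : FO.{u} (fun _ E v => Agr E (v a) (v b) (v c)) := by
  unfold Agr; (repeat' (first | exact FO.mem _ _ | apply FO.iff | apply FO.imp | apply FO.all))

theorem IsOG.fo (a b c : Fin k) : FO.{u} (fun _ E v => IsOG E (v a) (v b) (v c)) := by
  unfold IsOG; (repeat' (first | exact App.fo _ _ _ | exact Agr.fo _ _ _ | exact FO.mem _ _ | apply FO.and | apply FO.imp | apply FO.ex | apply FO.all))

theorem OCA.fo : FO.{u} (fun _ E (_ : Fin k → _) => OCA E) := by
  unfold OCA; (repeat' (first | exact IsOmega.fo _ | exact IsOG.fo _ _ _ | exact IsCtb.fo _ | exact Maps.fo _ _ _ | exact App.fo _ _ _ | exact Sub.fo _ _ | exact FO.mem _ _ | exact FO.eq _ _ | apply FO.not | apply FO.and | apply FO.or | apply FO.imp | apply FO.ex | apply FO.all))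

end fo

end MAO
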