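import Pool.Agent.W_MP_3b51b4_h40.ToolsMO

/-!
# MP_3b51b4_gt : the Open Colouring Axiom in the model
-/

set_option autoImplicit false

universe u

open Cardinal Set HESR IM.BSet DCM
open IM (BSet)

namespace MAO
open HESR DCM

/-- the situation of the axiom -/
def HypO {T : Type*} (E : T → T → Prop) (w X G : T) : Prop :=
  (∀ x, E x X → Sub E x w) ∧ IsOG E w X G

theorem HypO.fo {k : ℕ} (a b c : Fin k) : FO.{u} (fun _ E v => HypO E (v a) (v b) (v c)) := by
  unfold HypO; (repeat' (first | exact IsOG.fo _ _ _ | exact Sub.fo _ _ | exact FO.mem _ _ | apply FO.and | apply FO.imp | apply FO.ex | apply FO.all))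

/-- the conclusion of the axiom -/
def ConO {T : Type*} (E : T → T → Prop) (w X G : T) : Prop :=
  (∃ A, Sub E A X ∧ ¬ IsCtb E A ∧ ∀ x y, E x A → E y A → x ≠ y → App E G x y) ∨
    ∃ c, Maps E c X w ∧ ∀ x y n, App E c x n → App E c y n → x ≠ y → ¬ App E G x y

theorem ConO.fo {k : ℕ} (a b c : Fin k) : FO.{u} (fun _ E v => ConO E (v a) (v b) (v c)) := by
  unfold ConO; (repeat' (first | exact IsCtb.fo _ | exact Maps.fo _ _ _ | exact App.fo _ _ _ | exact Sub.fo _ _ | exact FO.mem _ _ | exact FO.eq _ _ | apply FO.not | apply FO.and | apply FO.or | apply FO.imp | apply FO.ex | apply FO.all))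

end MAO

namespace BVM

/-- finite conjunctions -/
theorem TD.allFin {D : Type u} [CompleteBooleanAlgebra D] {k : ℕ} : ∀ {m : ℕ}
    {P : Fin m → ∀ (lam : D → Prop) (hl : IsUF lam), (Fin k → X hl) → Prop} (_ : ∀ i, TD (P i)),
    TD fun lam hl v => ∀ i, P i lam hl v
  | 0, _, _ => TD.congr TD.tt fun _ _ _ => ⟨fun _ => trivial, fun _ i => i.elim0⟩
  | _ + 1, _, h => TD.congr (TD.and (h 0) (TD.allFin fun i => h i.succ)) fun _ _ _ =>
      Fin.forall_fin_succ

end BVM

namespace MAOM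

open BVM MAO

section
variable {W D : Type u} [LinearOrder W] [WellFoundedLT W] [CompleteBooleanAlgebra D]

/-! ### Names of reals -/

/-- the name of a subset of `ω` -/
def nN (x : ℕ → D) : BSet D := mk (ULift.{u} ℕ) (fun n => natB n.down) fun n => x n.down

/-- the trace of a name on `ω` -/
noncomputable def trN (S : BSet D) (n : ℕ) : D := bmem (natB n) S

theorem trN_iff {S : BSet D} {n : ℕ} {lam : D → Prop} {hl : IsUF lam} :
    E hl (val hl (natB n)) (val hl S) ↔ lam (trN S n) := E_val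

theorem trN_nN (x : ℕ → D) (n : ℕ) : trN (nN x) n = x n := by
  have h1 : trN (nN x) n = ⨆ m : ULift.{u} ℕ, x m.down ⊓ beq (natB n) (natB m.down) := rfl
  rw [h1]
  apply le_antisymm
  · refine iSup_le fun m => ?_
    by_cases hnm : n = m.down
    · rw [hnm]
      exact inf_le_left
    · rw [beq_natB_ne hnm, inf_bot_eq]
      exact bot_le
  · refine le_iSup_of_le ⟨n⟩ ?_
    rw [beq_refl (natB n), inf_top_eq]

theorem nN_sub {x : ℕ → D} {lam : D → Prop} (hl : IsUF lam) :
    Sub (E hl) (val hl (nN x)) (val hl omB) :=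
  forall_mk (P := fun lam hl z => E hl z (val hl omB)) (TD.mem (Tm.var 0) (Tm.const _)) (a := ⊤)
    (fun i _ _ _ _ => E_omB i.down) hl.top

theorem eqV_iff {x y : ℕ → D} {lam : D → Prop} {hl : IsUF lam} :
    lam (eqV x y) → ∀ n, lam (x n) ↔ lam (y n) := by
  intro h n
  obtain ⟨h1, h2⟩ := hl.inf_iff.1 (hl.mono (iInf_le _ n) h)
  rw [hl.sup_iff, hl.compl_iff] at h1 h2
  exact ⟨fun h3 => h1.resolve_left fun h4 => h4 h3, fun h3 => h2.resolve_left fun h4 => h4 h3⟩

theorem eqV_symm (x y : ℕ → D) : eqV x y = eqV y x :=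
  iInf_congr fun _ => inf_comm _ _

/-- subsets of `ω` with the same traces are equal -/
theorem ext_omB {S R : BSet D} {lam : D → Prop} {hl : IsUF lam}
    (hS : Sub (E hl) (val hl S) (val hl omB)) (hR : Sub (E hl) (val hl R) (val hl omB))
    (h : lam (eqV (trN S) (trN R))) : val hl S = val hl R := by
  have key : ∀ z, E hl z (val hl omB) → (E hl z (val hl S) ↔ E hl z (val hl R)) := by
    refine forall_omB (P := fun lam hl z => (E hl z (val hl S) ↔ E hl z (val hl R)))
      (TD.iff (TD.mem (Tm.var 0) (Tm.const _)) (TD.mem (Tm.var 0) (Tm.const _)))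
      (a := eqV (trN S) (trN R)) ?_ h
    intro n lam hl hlam
    rw [trN_iff, trN_iff]
    exact eqV_iff (hl := hl) hlam n
  exact (zfc hl).ext _ _ fun z => ⟨fun hz => (key z (hS z hz)).1 hz, fun hz => (key z (hR z hz)).2 hz⟩

theorem lam_eqV {S R : BSet D} {lam : D → Prop} {hl : IsUF lam}
    (h : val hl S = val hl R) : lam (eqV (trN S) (trN R)) := by
  refine hl.mono ?_ (val_eq.1 h)
  refine le_iInf fun n => ?_
  rw [le_iff_ultra]
  intro lam hl hlam
  have h1 : E hl (val hl (natB n)) (val hl S) ↔ E hl (val hl (natB n)) (val hl R) := by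
    rw [val_eq.2 hlam]
  rw [trN_iff, trN_iff] at h1
  rw [hl.inf_iff, hl.sup_iff, hl.sup_iff, hl.compl_iff, hl.compl_iff]
  tauto

theorem eq_nN {S : BSet D} {lam : D → Prop} {hl : IsUF lam}
    (hS : Sub (E hl) (val hl S) (val hl omB)) : val hl S = val hl (nN (trN S)) := by
  refine ext_omB hS (nN_sub hl) ?_
  refine hl.mono ?_ hl.top
  refine le_iInf fun n => ?_
  rw [trN_nN, compl_sup_eq_top, inf_top_eq]

theorem nN_congr {x y : ℕ → D} {lam : D → Prop} {hl : IsUF lam} (h : lam (eqV x y)) :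
    val hl (nN x) = val hl (nN y) := by
  refine ext_omB (nN_sub hl) (nN_sub hl) ?_
  rwa [funext (trN_nN x), funext (trN_nN y)]

theorem nN_inj {x y : ℕ → D} {lam : D → Prop} {hl : IsUF lam}
    (h : val hl (nN x) = val hl (nN y)) : lam (eqV x y) := by
  have h1 := lam_eqV h
  rwa [funext (trN_nN x), funext (trN_nN y)] at h1

/-! ### Initial segments -/

/-- `s` is an initial segment of `z` -/
def Ini (s : List Bool) {lam : D → Prop} (hl : IsUF lam) (z : X hl) : Prop :=
  ∀ i : Fin s.length, E hl (val hl (natB i)) z ↔ s.get i = true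

theorem Ini.td (s : List Bool) {k : ℕ} {f : ∀ (lam : D → Prop) (hl : IsUF lam), (Fin k → X hl) → X hl}
    (hf : Tm f) : TD fun lam hl v => Ini s hl (f lam hl v) := by
  refine TD.allFin (P := fun i lam hl v => E hl (val hl (natB i)) (f lam hl v) ↔ s.get i = true)
    fun i => ?_
  by_cases h : s.get i = true
  · exact TD.congr (TD.mem (Tm.const _) hf) fun _ _ _ => ⟨fun h1 => h1.2 h,
      fun h1 => ⟨fun _ => h, fun _ => h1⟩⟩
  · exact TD.congr (TD.not (TD.mem (Tm.const _) hf)) fun _ _ _ =>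
      ⟨fun h1 h2 => h (h1.1 h2), fun h1 => ⟨fun h2 => (h1 h2).elim, fun h2 => (h h2).elim⟩⟩

theorem iniV_iff {s : List Bool} {x : ℕ → D} {lam : D → Prop} {hl : IsUF lam} :
    lam (iniV s x) ↔ Ini s hl (val hl (nN x)) := by
  unfold iniV Ini
  constructor
  · intro h i
    have h1 := hl.mono (iInf_le _ i) h
    rw [trN_iff, trN_nN]
    split_ifs at h1 with h2
    · exact ⟨fun _ => h2, fun _ => h1⟩
    · rw [hl.compl_iff] at h1
      exact ⟨fun h3 => (h1 h3).elim, fun h3 => (h2 h3).elim⟩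
  · intro h
    have h1 := hl.iInf_finset (Finset.univ : Finset (Fin s.length))
      (fun i => if s.get i = true then x i else (x i)ᶜ) (by
        intro i _
        have h2 := h i
        rw [trN_iff, trN_nN] at h2
        split_ifs with h3
        · exact h2.2 h3
        · rw [hl.compl_iff]
          exact fun h4 => h3 (h2.1 h4))
    simpa using h1

/-- the initial segment of length `n` in a quotient -/
theorem exists_ini (n : ℕ) {lam : D → Prop} (hl : IsUF lam) (z : X hl) :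
    ∃ s : List Bool, s.length = n ∧ Ini s hl z := by
  classical
  refine ⟨List.ofFn fun i : Fin n => decide (E hl (val hl (natB i)) z), List.length_ofFn, fun i => ?_⟩
  rw [List.get_ofFn]
  simp

/-- two reals with the same initial segment agree below its length -/
theorem agr_of_ini {s : List Bool} {n : ℕ} (hn : n ≤ s.length) {S R : BSet D} {lam : D → Prop}
    {hl : IsUF lam} (hS : Ini s hl (val hl S)) (hR : Ini s hl (val hl R)) :
    Agr (E hl) (val hl (natB n)) (val hl S) (val hl R) := by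
  induction n with
  | zero => exact fun z hz => (isEmp_natB z hz).elim
  | succ n ih =>
    intro z hz
    rcases (isSucc_natB n z).1 hz with h1 | rfl
    · exact ih (Nat.le_of_succ_le hn) z h1
    · exact (hS ⟨n, hn⟩).trans (hR ⟨n, hn⟩).symm

/-- initial segments of longer initial segments -/
theorem Ini.mono_str {s s' : List Bool} (h : s <+: s') {lam : D → Prop} {hl : IsUF lam} {z : X hl}
    (hs : Ini s' hl z) : Ini s hl z := by
  obtain ⟨r, rfl⟩ := h
  intro i
  have h1 := hs ⟨i.1, i.2.trans_le (by rw [List.length_append]; exact Nat.le_add_right _ _)⟩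
  rw [List.get_eq_getElem] at h1 ⊢
  rwa [List.getElem_append_left i.2] at h1

/-- initial segments of the same length are equal -/
theorem Ini.uniq {s t : List Bool} {lam : D → Prop} {hl : IsUF lam} {z : X hl} (hs : Ini s hl z)
    (ht : Ini t hl z) (h : s.length = t.length) : s = t := by
  refine List.ext_get h fun n h1 h2 => ?_
  have h3 := (hs ⟨n, h1⟩).symm.trans (ht ⟨n, h2⟩)
  exact Bool.eq_iff_iff.2 h3

/-! ### The set of reals and the code of the graph -/

/-- the truth value of `x ∈ X` -/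
noncomputable def xV (S : BSet D) (a : D) (x : ℕ → D) : D := a ⊓ bmem (nN x) S

theorem xV_iff {S : BSet D} {a : D} {x : ℕ → D} {lam : D → Prop} {hl : IsUF lam} :
    lam (xV S a x) ↔ lam a ∧ E hl (val hl (nN x)) (val hl S) := by
  rw [xV, hl.inf_iff, E_val]

theorem xV_ext (S : BSet D) (a : D) (x y : ℕ → D) : xV S a x ⊓ eqV x y ≤ xV S a y := by
  rw [le_iff_ultra]
  intro lam hl hlam
  obtain ⟨h1, h2⟩ := hl.inf_iff.1 hlam
  obtain ⟨h3, h4⟩ := (xV_iff (hl := hl)).1 h1
  exact (xV_iff (hl := hl)).2 ⟨h3, nN_congr (hl := hl) h2 ▸ h4⟩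

theorem td_apG {k : ℕ} (G : BSet D) {f g : ∀ (lam : D → Prop) (hl : IsUF lam), (Fin k → X hl) → X hl}
    (hf : Tm f) (hg : Tm g) : TD fun lam hl v => App (E hl) (val hl G) (f lam hl v) (g lam hl v) :=
  TD.app (Tm.const _) hf hg

theorem td_U (S G : BSet D) (s t : List Bool) : TD0 (D := D) fun lam hl =>
    ∀ x y, E hl x (val hl S) → E hl y (val hl S) → Ini s hl x → Ini t hl y →
      App (E hl) (val hl G) x y := by
  refine TD.all (P := fun lam hl x _ => ∀ y, E hl x (val hl S) → E hl y (val hl S) → Ini s hl x →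
    Ini t hl y → App (E hl) (val hl G) x y) ?_
  refine TD.all (P := fun lam hl y v => E hl (v 0) (val hl S) → E hl y (val hl S) →
    Ini s hl (v 0) → Ini t hl y → App (E hl) (val hl G) (v 0) y) ?_
  exact TD.imp (TD.mem (Tm.var 1) (Tm.const _)) (TD.imp (TD.mem (Tm.var 0) (Tm.const _))
    (TD.imp (Ini.td s (Tm.var 1)) (TD.imp (Ini.td t (Tm.var 0)) (TD.app (Tm.const _) (Tm.var 1)
      (Tm.var 0)))))

open Classical in
/-- the code of the graph -/
noncomputable def uV (S G : BSet D) (a : D) (s t : List Bool) : D :=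
  if s.length = t.length ∧ s ≠ t then a ⊓ TD.b0 (td_U S G s t) else ⊥

theorem lam_uV {S G : BSet D} {a : D} {s t : List Bool} {lam : D → Prop} {hl : IsUF lam} :
    lam (uV S G a s t) ↔ s.length = t.length ∧ s ≠ t ∧ lam a ∧ ∀ x y, E hl x (val hl S) →
      E hl y (val hl S) → Ini s hl x → Ini t hl y → App (E hl) (val hl G) x y := by
  unfold uV
  split_ifs with h
  · rw [hl.inf_iff, ← TD.b0_iff (td_U S G s t) (hl := hl)]
    exact ⟨fun h1 => ⟨h.1, h.2, h1⟩, fun h1 => h1.2.2⟩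
  · exact ⟨fun h1 => (hl.bot h1).elim, fun h1 => (h ⟨h1.1, h1.2.1⟩).elim⟩

section
variable {S G : BSet D} {a : D}
  (ha : ∀ (lam : D → Prop) (hl : IsUF lam), lam a → HypO (E hl) (val hl omB) (val hl S) (val hl G))
include ha

theorem uV_le (s t : List Bool) : uV S G a s t ≤ uV S G a t s := by
  rw [le_iff_ultra]
  intro lam hl hlam
  obtain ⟨h1, h2, h3, h4⟩ := (lam_uV (hl := hl)).1 hlam
  refine (lam_uV (hl := hl)).2 ⟨h1.symm, h2.symm, h3, fun x y hx hy hxt hys => ?_⟩
  exact ((ha lam hl h3).2 y x hy hx (h4 y x hy hx hys hxt)).1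

theorem codeV : CodeV (uV S G a) where
  symm s t := le_antisymm (uV_le ha s t) (uV_le ha t s)
  irr s := by
    rw [eq_bot_iff_ultra]
    intro lam hl hlam
    exact ((lam_uV (hl := hl)).1 hlam).2.1 rfl
  len s t hst := by
    rw [eq_bot_iff_ultra]
    intro lam hl hlam
    exact hst ((lam_uV (hl := hl)).1 hlam).1
  mono s t s' t' h1 h2 h3 h4 := by
    rw [le_iff_ultra]
    intro lam hl hlam
    obtain ⟨h5, h6, h7, h8⟩ := (lam_uV (hl := hl)).1 hlam
    refine (lam_uV (hl := hl)).2 ⟨h2, fun h => h6 ?_, h7, fun x y hx hy hxs hyt => ?_⟩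
    · subst h
      exact List.IsPrefix.eq_of_length_le (List.prefix_of_prefix_length_le h3 h4 h1.le) h1.ge
    · exact h8 x y hx hy (hxs.mono_str h3) (hyt.mono_str h4)

omit ha in
/-- the pair is in the graph if it is in the open set -/
theorem app_of_opV {x y : ℕ → D} {lam : D → Prop} {hl : IsUF lam} (hx : lam (xV S a x))
    (hy : lam (xV S a y)) (h : lam (opV (uV S G a) x y)) :
    App (E hl) (val hl G) (val hl (nN x)) (val hl (nN y)) := by
  rw [apw_iff]
  refine hl.mono ?_ (hl.inf (hl.inf hx hy) h)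
  unfold opV
  rw [inf_iSup_eq]
  refine iSup_le fun s => ?_
  rw [inf_iSup_eq]
  refine iSup_le fun t => ?_
  rw [le_iff_ultra]
  intro lam hl hlam
  obtain ⟨h1, h2⟩ := hl.inf_iff.1 hlam
  obtain ⟨hx, hy⟩ := hl.inf_iff.1 h1
  obtain ⟨h3, h4⟩ := hl.inf_iff.1 h2
  obtain ⟨h5, h6⟩ := hl.inf_iff.1 h4
  rw [← apw_iff (hl := hl)]
  exact ((lam_uV (hl := hl)).1 h3).2.2.2 _ _ (xV_iff.1 hx).2 (xV_iff.1 hy).2
    (iniV_iff.1 h5) (iniV_iff.1 h6)

omit ha in
/-- connected reals are different -/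
theorem ne_of_opV {x y : ℕ → D} {lam : D → Prop} (hl : IsUF lam) 
    (h : lam (opV (uV S G a) x y)) : ¬ lam (eqV x y) := by
  intro he
  refine hl.bot (hl.mono ?_ (hl.inf he h))
  unfold opV
  rw [inf_iSup_eq]
  refine iSup_le fun s => ?_
  rw [inf_iSup_eq]
  refine iSup_le fun t => ?_
  rw [le_iff_ultra]
  intro lam hl hlam
  obtain ⟨h1, h2⟩ := hl.inf_iff.1 hlam
  obtain ⟨h3, h4⟩ := hl.inf_iff.1 h2
  obtain ⟨h5, h6⟩ := hl.inf_iff.1 h4
  obtain ⟨h7, h8, _⟩ := (lam_uV (hl := hl)).1 h3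
  have h9 := (iniV_iff (hl := hl)).1 h5
  rw [nN_congr (hl := hl) h1] at h9
  exact (h8 (h9.uniq (iniV_iff.1 h6) h7)).elim

/-- the pair is in the open set if it is in the graph -/
theorem opV_of_app {x y : ℕ → D} {lam : D → Prop} {hl : IsUF lam} (hx : lam (xV S a x))
    (hy : lam (xV S a y)) (h : App (E hl) (val hl G) (val hl (nN x)) (val hl (nN y)))
    (hxy : ¬ lam (eqV x y)) : lam (opV (uV S G a) x y) := by
  have hla := ((xV_iff (hl := hl)).1 hx).1
  have hT : TD1 (D := D) fun lam hl n => ∀ x' y', E hl x' (val hl S) → E hl y' (val hl S) →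
      Agr (E hl) n (val hl (nN x)) x' → Agr (E hl) n (val hl (nN y)) y' →
        App (E hl) (val hl G) x' y' := by
    refine TD.all (P := fun lam hl x' v => ∀ y', E hl x' (val hl S) → E hl y' (val hl S) →
      Agr (E hl) (v 0) (val hl (nN x)) x' → Agr (E hl) (v 0) (val hl (nN y)) y' →
        App (E hl) (val hl G) x' y') ?_
    refine TD.all (P := fun lam hl y' v => E hl (v 0) (val hl S) → E hl y' (val hl S) →
      Agr (E hl) (v 1) (val hl (nN x)) (v 0) → Agr (E hl) (v 1) (val hl (nN y)) y' →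
        App (E hl) (val hl G) (v 0) y') ?_
    refine TD.imp (TD.mem (Tm.var 1) (Tm.const _)) (TD.imp (TD.mem (Tm.var 0) (Tm.const _))
      (TD.imp ?_ (TD.imp ?_ (TD.app (Tm.const _) (Tm.var 1) (Tm.var 0)))))
    · exact TD.fo3 (R := fun _ E a b c => Agr E a b c) (Agr.fo 0 1 2) (Tm.var 2) (Tm.const _) (Tm.var 1)
    · exact TD.fo3 (R := fun _ E a b c => Agr E a b c) (Agr.fo 0 1 2) (Tm.var 2) (Tm.const _) (Tm.var 0)
  obtain ⟨n, hn, h1⟩ := ((ha lam hl hla).2 _ _ ((xV_iff (hl := hl)).1 hx).2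
    ((xV_iff (hl := hl)).1 hy).2 h).2
  have h2 := (exists_omB_iff hT (hl := hl)).1 ⟨n, hn, h1⟩
  rw [← hl.compl_iff] at hxy
  have h3 : (eqV x y)ᶜ = ⨆ m, (((x m)ᶜ ⊔ y m) ⊓ ((y m)ᶜ ⊔ x m))ᶜ := compl_iInf
  rw [h3] at hxy
  refine hl.mono ?_ (hl.inf hla (hl.inf hxy h2))
  rw [iSup_inf_eq, inf_iSup_eq]
  refine iSup_le fun m => ?_
  rw [inf_iSup_eq, inf_iSup_eq]
  refine iSup_le fun n => ?_
  rw [le_iff_ultra]
  intro lam hl hlam
  obtain ⟨h3, h5⟩ := hl.inf_iff.1 hlam
  obtain ⟨h6, h4⟩ := hl.inf_iff.1 h5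
  rw [← TD.b1_iff hT (hl := hl)] at h4
  rw [hl.compl_iff, hl.inf_iff, hl.sup_iff, hl.sup_iff, hl.compl_iff, hl.compl_iff] at h6
  obtain ⟨s, hsn, hs⟩ := exists_ini (max n (m + 1)) hl (val hl (nN x))
  obtain ⟨t, htn, ht⟩ := exists_ini (max n (m + 1)) hl (val hl (nN y))
  refine hl.mono (le_iSup₂ (f := fun s t => uV S G a s t ⊓ (iniV s x ⊓ iniV t y)) s t) ?_
  refine hl.inf ((lam_uV (hl := hl)).2 ⟨hsn.trans htn.symm, ?_, h3, ?_⟩)
    (hl.inf (iniV_iff.2 hs) (iniV_iff.2 ht))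
  · rintro rfl
    apply h6
    have h7 := hs ⟨m, by rw [hsn]; exact lt_of_lt_of_le (Nat.lt_succ_self m) (le_max_right _ _)⟩
    have h8 := ht ⟨m, by rw [hsn]; exact lt_of_lt_of_le (Nat.lt_succ_self m) (le_max_right _ _)⟩
    rw [trN_iff, trN_nN] at h7 h8
    tauto
  · intro x' y' hx' hy' hsx hty
    obtain ⟨x', rfl⟩ := exists_name x'
    obtain ⟨y', rfl⟩ := exists_name y'
    exact h4 _ _ hx' hy' (agr_of_ini (by rw [hsn]; exact le_max_left _ _) hs hsx)
      (agr_of_ini (by rw [htn]; exact le_max_left _ _) ht hty)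

end

/-! ### The two alternatives -/

/-- an uncountable clique -/
theorem clique_X (h : CoreMO W D) {S G : BSet D} {a b : D}
    {Z : W → D} {q : W → ℕ → D} (hZ : ∀ z, b ≤ ⨆ w : Ici z, Z w.1) (hq1 : ∀ w, b ⊓ Z w ≤ xV S a (q w))
    (hq2 : ∀ w w', w ≠ w' → b ⊓ (Z w ⊓ Z w') ≤ opV (uV S G a) (q w) (q w'))
    {lam : D → Prop} (hl : IsUF lam) (hlam : lam b) :
    ∃ A, Sub (E hl) A (val hl S) ∧ ¬ IsCtb (E hl) A ∧
      ∀ x y, E hl x A → E hl y A → x ≠ y → App (E hl) (val hl G) x y := by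
  set A : BSet D := mk W (fun w => nN (q w)) Z with hA
  refine ⟨val hl A, ?_, fun hc => ?_, ?_⟩
  · exact forall_mk (P := fun lam hl z => E hl z (val hl S)) (TD.mem (Tm.var 0) (Tm.const _))
      (a := b) (fun w lam hl hlam hw => (xV_iff.1 (hl.mono (hq1 w) (hl.inf hlam hw))).2) hlam
  · have hT : TD0 (D := D) fun lam hl => IsCtb (E hl) (val hl A) := TD.isCtb (Tm.const _)
    have hlc := hl.inf hlam ((TD.b0_iff hT).1 hc)
    have hc0 : b ⊓ TD.b0 hT ≠ ⊥ := fun h0 => hl.bot (h0 ▸ hlc)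
    obtain ⟨d, z, hd0, hdb, hd⟩ := bdd_of_ctb h (A := Z) (t := fun w : W => nN (q w)) hc0
      (fun x y hxy => by
        rw [eq_bot_iff_ultra]
        intro lam hl hlam
        obtain ⟨h1, h2⟩ := hl.inf_iff.1 hlam
        obtain ⟨h4, h3⟩ := hl.inf_iff.1 h2
        exact ne_of_opV hl (hl.mono (hq2 x y hxy) (hl.inf (hl.inf_iff.1 h1).1 h4))
          (nN_inj (hl := hl) (val_eq.2 h3)))
      (fun lam hl hlam => (TD.b0_iff hT).2 (hl.inf_iff.1 hlam).2)
    apply hd0
    rw [← le_bot_iff]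
    calc d ≤ d ⊓ ⨆ x : Ici z, Z x.1 := le_inf le_rfl (hdb.trans (inf_le_left.trans (hZ z)))
      _ = ⨆ x : Ici z, d ⊓ Z x.1 := inf_iSup_eq _ _
      _ ≤ ⊥ := iSup_le fun x => (hd x.1 x.2).le
  · have key : ∀ x, E hl x (val hl A) → ∀ y, E hl y (val hl A) → x ≠ y →
        App (E hl) (val hl G) x y := by
      refine forall_mk (P := fun lam hl x => ∀ y, E hl y (val hl A) → x ≠ y →
        App (E hl) (val hl G) x y) ?_ (a := b) ?_ hlam
      · exact TD.all (P := fun lam hl y v => E hl y (val hl A) → v 0 ≠ y →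
          App (E hl) (val hl G) (v 0) y) (TD.imp (TD.mem (Tm.var 0) (Tm.const _))
            (TD.imp (TD.not (TD.eq (Tm.var 1) (Tm.var 0))) (TD.app (Tm.const _) (Tm.var 1) (Tm.var 0))))
      · intro w lam hl hlam hw
        refine forall_mk (P := fun lam hl y => val hl (nN (q w)) ≠ y →
          App (E hl) (val hl G) (val hl (nN (q w))) y) ?_ (a := b ⊓ Z w) ?_ (hl.inf hlam hw)
        · exact TD.imp (TD.not (TD.eq (Tm.const _) (Tm.var 0)))
            (TD.app (Tm.const _) (Tm.const _) (Tm.var 0))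
        · intro w' lam hl hlam hw' hne
          obtain ⟨hlb, hw⟩ := hl.inf_iff.1 hlam
          have hww : w ≠ w' := fun h => hne (by rw [h])
          exact app_of_opV (hl.mono (hq1 w) (hl.inf hlb hw)) (hl.mono (hq1 w') (hl.inf hlb hw'))
            (hl.mono (hq2 w w' hww) (hl.inf hlb (hl.inf hw hw')))
    exact fun x y hx hy => key x hx y hy

/-- a countable cover -/
theorem cover_X {S G : BSet D} {a b : D} (hba : b ≤ a)
    (ha : ∀ (lam : D → Prop) (hl : IsUF lam), lam a → HypO (E hl) (val hl omB) (val hl S) (val hl G))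
    {C : ℕ → (ℕ → D) → D} (hC : ∀ n x y, C n x ⊓ eqV x y ≤ C n y)
    (hcov : ∀ x, b ⊓ xV S a x ≤ ⨆ n, C n x)
    (hind : ∀ n x y, b ⊓ (xV S a x ⊓ xV S a y) ⊓ (C n x ⊓ C n y) ⊓ opV (uV S G a) x y = ⊥)
    {lam : D → Prop} (hl : IsUF lam) (hlam : lam b) :
    ∃ c, Maps (E hl) c (val hl S) (val hl omB) ∧ ∀ x y n, App (E hl) c x n → App (E hl) c y n →
      x ≠ y → ¬ App (E hl) (val hl G) x y := by
  have hSw : ∀ (lam : D → Prop) (hl : IsUF lam), lam b → ∀ x, E hl x (val hl S) →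
      Sub (E hl) x (val hl omB) := fun lam hl hlam => (ha lam hl (hl.mono hba hlam)).1
  set R : BSet D := relB (ι := S.ty × ULift.{u} ℕ) (fun p => S.fn p.1) (fun p => natB p.2.down)
    fun p => S.wt p.1 ⊓ C p.2.down (trN (S.fn p.1)) with hR
  -- every element of `S` has a colour
  have h1 : ∀ x, E hl x (val hl S) → ∃ n, E hl n (val hl omB) ∧ App (E hl) (val hl R) x n := by
    refine forall_mem (P := fun lam hl x => ∃ n, E hl n (val hl omB) ∧
      App (E hl) (val hl R) x n) ?_ (a := b) ?_ hlam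
    · exact TD.ex (P := fun lam hl n v => E hl n (val hl omB) ∧ App (E hl) (val hl R) (v 0) n)
        (TD.and (TD.mem (Tm.var 0) (Tm.const _)) (TD.app (Tm.const _) (Tm.var 1) (Tm.var 0)))
    · intro i lam hl hlam hi
      have h2 : E hl (val hl (S.fn i)) (val hl S) := by
        rw [E_val]
        exact hl.mono (le_iSup_of_le i (by rw [beq_refl (S.fn i), inf_top_eq])) hi
      have h3 : lam (xV S a (trN (S.fn i))) :=
        (xV_iff (hl := hl)).2 ⟨hl.mono hba hlam, eq_nN (hSw lam hl hlam _ h2) ▸ h2⟩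
      have hT : TD1 (D := D) fun lam hl n => App (E hl) (val hl R) (val hl (S.fn i)) n :=
        TD.app (Tm.const _) (Tm.const _) (Tm.var 0)
      rw [exists_omB_iff hT]
      refine hl.mono ?_ (hl.inf hi (hl.mono (hcov _) (hl.inf hlam h3)))
      rw [inf_iSup_eq]
      refine iSup_mono fun n => ?_
      rw [TD.le_b1 hT]
      intro lam hl hlam
      exact app_relB_of (f := fun p : S.ty × ULift.{u} ℕ => S.fn p.1)
        (g := fun p : S.ty × ULift.{u} ℕ => (natB p.2.down : BSet D)) (i, ⟨n⟩) hlam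
  -- the values of `R`
  have h2 : ∀ (x : BSet D) (n : ℕ) (lam : D → Prop) (hl : IsUF lam),
      App (E hl) (val hl R) (val hl x) (val hl (natB n)) → lam (C n (trN x)) := by
    intro x n lam hl h
    rw [hR, app_relB] at h
    refine hl.mono ?_ h
    refine iSup_le fun p => ?_
    by_cases hn : n = p.2.down
    · rw [le_iff_ultra]
      intro lam hl hlam
      obtain ⟨h3, h4⟩ := hl.inf_iff.1 hlam
      obtain ⟨_, h5⟩ := hl.inf_iff.1 h3
      obtain ⟨h6, _⟩ := hl.inf_iff.1 h4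
      rw [← hn] at h5
      exact hl.mono (hC n _ _) (hl.inf h5 (lam_eqV (hl := hl) (val_eq.2 h6).symm))
    · rw [beq_natB_ne hn, inf_bot_eq, inf_bot_eq]
      exact bot_le
  -- the classes are independent
  have h3 : ∀ n, E hl n (val hl omB) → ∀ x y, E hl x (val hl S) → E hl y (val hl S) →
      App (E hl) (val hl R) x n → App (E hl) (val hl R) y n → App (E hl) (val hl G) x y → x = y := by
    refine forall_omB (P := fun lam hl n => ∀ x y, E hl x (val hl S) → E hl y (val hl S) →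
      App (E hl) (val hl R) x n → App (E hl) (val hl R) y n → App (E hl) (val hl G) x y → x = y) ?_
      (a := b) ?_ hlam
    · refine TD.all (P := fun lam hl x v => ∀ y, E hl x (val hl S) → E hl y (val hl S) →
        App (E hl) (val hl R) x (v 0) → App (E hl) (val hl R) y (v 0) →
          App (E hl) (val hl G) x y → x = y) ?_
      refine TD.all (P := fun lam hl y v => E hl (v 0) (val hl S) → E hl y (val hl S) →
        App (E hl) (val hl R) (v 0) (v 1) → App (E hl) (val hl R) y (v 1) →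
          App (E hl) (val hl G) (v 0) y → v 0 = y) ?_
      exact TD.imp (TD.mem (Tm.var 1) (Tm.const _)) (TD.imp (TD.mem (Tm.var 0) (Tm.const _))
        (TD.imp (TD.app (Tm.const _) (Tm.var 1) (Tm.var 2)) (TD.imp (TD.app (Tm.const _) (Tm.var 0)
          (Tm.var 2)) (TD.imp (TD.app (Tm.const _) (Tm.var 1) (Tm.var 0))
            (TD.eq (Tm.var 1) (Tm.var 0))))))
    · intro n lam hl hlam x y hx hy hxn hyn hxy
      obtain ⟨x, rfl⟩ := exists_name x
      obtain ⟨y, rfl⟩ := exists_name y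
      have hx' := eq_nN (hSw lam hl hlam _ hx)
      have hy' := eq_nN (hSw lam hl hlam _ hy)
      have hxv : lam (xV S a (trN x)) := (xV_iff (hl := hl)).2 ⟨hl.mono hba hlam, hx' ▸ hx⟩
      have hyv : lam (xV S a (trN y)) := (xV_iff (hl := hl)).2 ⟨hl.mono hba hlam, hy' ▸ hy⟩
      by_contra hne
      have hop : lam (opV (uV S G a) (trN x) (trN y)) := by
        refine opV_of_app ha (hl := hl) hxv hyv ?_ fun h5 => hne ?_
        · rw [← hx', ← hy']
          exact hxy
        · exact ext_omB (hSw lam hl hlam _ hx) (hSw lam hl hlam _ hy) h5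
      exact hl.bot (hind n (trN x) (trN y) ▸ hl.inf (hl.inf (hl.inf hlam (hl.inf hxv hyv))
        (hl.inf (h2 x n lam hl hxn) (h2 y n lam hl hyn))) hop)
  -- the least colour
  have hZ := zfc hl
  have hd : Def2 (E hl) fun x n => (E hl n (val hl omB) ∧ App (E hl) (val hl R) x n) ∧
      ∀ m, E hl m n → ¬ (E hl m (val hl omB) ∧ App (E hl) (val hl R) x m) := by
    refine Def.and (Def.and (Def.mem (DefFun.var _) (DefFun.const _))
      (App.df (DefFun.const _) (DefFun.var _) (DefFun.var _))) (Def.all (Def.imp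
        (Def.mem (DefFun.var _) (DefFun.var _)) (Def.not (Def.and (Def.mem (DefFun.var _)
          (DefFun.const _)) (App.df (DefFun.const _) (DefFun.var _) (DefFun.var _))))))
  obtain ⟨c, hc, hc'⟩ := hZ.exFun hd (val hl S) (by
    intro x hx
    obtain ⟨n, hn, hxn⟩ := h1 x hx
    have ho : IsOrd (E hl) n := (isOmega_omB (D := D) (hl := hl)).1.mem hn
    obtain ⟨m, hmo, hm, hmin⟩ := ho.least hZ (P := fun m => E hl m (val hl omB) ∧
      App (E hl) (val hl R) x m) (Def.and (Def.mem (DefFun.var _) (DefFun.const _))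
        (App.df (DefFun.const _) (DefFun.const _) (DefFun.var _))) ⟨hn, hxn⟩
    refine ⟨m, ⟨hm, hmin⟩, ?_⟩
    rintro m' ⟨hm', hmin'⟩
    have hmo' : IsOrd (E hl) m' := (isOmega_omB (D := D) (hl := hl)).1.mem hm'.1
    rcases hmo'.tri hZ hmo with h4 | h4 | h4
    · exact (hmin m' h4 hm').elim
    · exact h4
    · exact (hmin' m h4 hm).elim)
  refine ⟨c, ⟨hc, fun x n hxn => ?_⟩, fun x y n hxn hyn hne hxy => ?_⟩
  · exact ((hc' x (hc.dom hZ hxn) n).1 hxn).1.1
  · have h4 := ((hc' x (hc.dom hZ hxn) n).1 hxn).1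
    have h5 := ((hc' y (hc.dom hZ hyn) n).1 hyn).1
    exact hne (h3 n h4.1 x y (hc.dom hZ hxn) (hc.dom hZ hyn) h4.2 h5.2 hxy)

/-- the Open Colouring Axiom in the quotients -/
theorem oca_X (h : CoreMO W D) {lam : D → Prop} (hl : IsUF lam) : OCA (E hl) := by
  intro w S G hw hS hG
  by_contra hno
  obtain rfl := eq_omB hw
  obtain ⟨S, rfl⟩ := exists_name S
  obtain ⟨G, rfl⟩ := exists_name G
  have t1 : TD0 (D := D) fun lam hl => HypO (E hl) (val hl omB) (val hl S) (val hl G) :=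
    TD.fo3 (R := fun _ E a b c => HypO E a b c) (HypO.fo 0 1 2) (Tm.const _) (Tm.const _)
      (Tm.const _)
  have t2 : TD0 (D := D) fun lam hl => ConO (E hl) (val hl omB) (val hl S) (val hl G) :=
    TD.fo3 (R := fun _ E a b c => ConO E a b c) (ConO.fo 0 1 2) (Tm.const _) (Tm.const _)
      (Tm.const _)
  have h1 : lam (TD.b0 t1) := (TD.b0_iff t1).1 ⟨hS, hG⟩
  have h2 : lam (TD.b0 t2)ᶜ := hl.compl_iff.2 fun h => hno ((TD.b0_iff t2).2 h)
  have h0 : TD.b0 t1 ⊓ (TD.b0 t2)ᶜ ≠ ⊥ := fun h0 => hl.bot (h0 ▸ hl.inf h1 h2)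
  set a : D := TD.b0 t1 ⊓ (TD.b0 t2)ᶜ with hadef
  have ha : ∀ (lam : D → Prop) (hl : IsUF lam), lam a →
      HypO (E hl) (val hl omB) (val hl S) (val hl G) := fun lam hl hlam =>
    (TD.b0_iff t1).2 (hl.mono inf_le_left hlam)
  rcases h.oca (xV S a) (uV S G a) (xV_ext S a) (codeV ha) a h0 with
    ⟨b, Z, q, hb0, hba, hZ, hq1, hq2⟩ | ⟨b, C, hb0, hba, hC1, hC2, hC3⟩
  · obtain ⟨lam, hl, hlam⟩ := exists_isUF hb0
    have h3 := (TD.b0_iff t2).1 (Or.inl (clique_X h hZ hq1 hq2 hl hlam))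
    exact hl.compl_iff.1 (hl.mono (hba.trans inf_le_right) hlam) h3
  · obtain ⟨lam, hl, hlam⟩ := exists_isUF hb0
    have h3 := (TD.b0_iff t2).1 (Or.inr (cover_X hba ha hC1 hC2 hC3 hl hlam))
    exact hl.compl_iff.1 (hl.mono (hba.trans inf_le_right) hlam) h3

end

end MAOM
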