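import Pool.Agent.W_MP_3b51b4_h40.MAM
import Pool.Agent.W_MP_3b51b4_h40.OCAM

/-!
# MP_3b51b4_gt : the countable well-founded model of ZFC + `MA_ℵ₁` + OCA, from the properties `CoreMO`
-/

set_option autoImplicit false

universe u

open Cardinal Set HESR IM.BSet DCM
open IM (BSet)

namespace MAOM

open BVM MAO

/-- The properties of the complete Boolean algebra give a countable well-founded model of ZFC in which Martin's
axiom for `ℵ₁` dense sets and the Open Colouring Axiom hold. -/
theorem model_of_coreMO {W D : Type u} [LinearOrder W] [WellFoundedLT W] [CompleteBooleanAlgebra D]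
    [Nontrivial D] (h : CoreMO W D) :
    ∃ (M : Type (u + 1)) (E : M → M → Prop), Countable M ∧ WellFounded E ∧ HESR.IsZFC E ∧
      MA1 E ∧ OCA E := by
  obtain ⟨N, hNc, _, hW, hN⟩ := exists_names_closed (D := D) (fun x _ => x) omB
  obtain ⟨lam, hl, _, hwf⟩ := exists_wf (D := D) (a := ⊤) top_ne_bot N hNc
  have hM : Countable (Mdl hl N) := by
    have h1 : Countable N := hNc.to_subtype
    have h2 : Function.Surjective fun z : N => (⟨val hl z.1, z.1, z.2, rfl⟩ : Mdl hl N) := by
      rintro ⟨x, z, hz, rfl⟩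
      exact ⟨⟨z, hz⟩, rfl⟩
    exact h2.countable
  exact ⟨Mdl hl N, EM hl N, hM, hwf, zfc_mdl hl N hN,
    (fo_transfer hN (MA1.fo (k := 0)) Fin.elim0).2 (ma1_X h hl),
    (fo_transfer hN (OCA.fo (k := 0)) Fin.elim0).2 (oca_X h hl)⟩

end MAOM
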