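import Mathlib

/-!
# MP_3b51b4_gt : what the forcing construction delivers about the complete Boolean algebra

`W` is a well-order of type `ω₁`, `D` is a complete Boolean algebra (the final model is a countable submodel of a
quotient of the Boolean-valued model over `D`).  Subsets of `W` in the extension are given by functions `A : W → D`
(`A x` is the truth value of `x ∈ A`), reals (subsets of `ℕ`) by functions `x : ℕ → D`, sets of reals by extensional
functions `X : (ℕ → D) → D`.
-/

universe u

open Set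

namespace MAO

section
variable {W D : Type u} [LinearOrder W] [CompleteBooleanAlgebra D]

/-- `R` is the name of a preorder on `W` (`R x y` is the truth value of `x ≤ y`, `x` is stronger than `y`) -/
structure PreV (R : W → W → D) : Prop where
  refl : ∀ x, R x x = ⊤
  trans : ∀ x y z, R x y ⊓ R y z ≤ R x z

/-- the preorder `R` has the countable chain condition in the extension: every unbounded (i.e. uncountable)
subset `A` of `W` contains two different compatible elements -/
def CccV (R : W → W → D) : Prop :=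
  ∀ (A : W → D) (c : D), c ≠ ⊥ → (∀ z, c ≤ ⨆ x : Ici z, A x.1) →
    ∃ x y z, x ≠ y ∧ c ⊓ (A x ⊓ A y ⊓ (R z x ⊓ R z y)) ≠ ⊥

/-- the truth value of `x = y` for reals -/
def eqV (x y : ℕ → D) : D := ⨅ n, ((x n)ᶜ ⊔ y n) ⊓ ((y n)ᶜ ⊔ x n)

/-- the truth value of: the finite sequence `s` is an initial segment of the real `x` -/
def iniV (s : List Bool) (x : ℕ → D) : D :=
  ⨅ i : Fin s.length, if s.get i = true then x i else (x i)ᶜ

/-- `U` is the name of a code of an open graph: a symmetric relation between finite sequences of the same length,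
closed under extensions, such that no sequence is related to itself -/
structure CodeV (U : List Bool → List Bool → D) : Prop where
  symm : ∀ s t, U s t = U t s
  irr : ∀ s, U s s = ⊥
  len : ∀ s t, s.length ≠ t.length → U s t = ⊥
  mono : ∀ s t s' t', s.length = t.length → s'.length = t'.length → s <+: s' → t <+: t' → U s t ≤ U s' t'

/-- the truth value of: the reals `x` and `y` are connected in the open graph with the code `U` -/
def opV (U : List Bool → List Bool → D) (x y : ℕ → D) : D :=
  ⨆ (s : List Bool) (t : List Bool), U s t ⊓ (iniV s x ⊓ iniV t y)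

/-- the truth value of: all initial segments of the real `x` are in `T` -/
def brV (T : List Bool → D) (x : ℕ → D) : D := ⨅ s : List Bool, (iniV s x)ᶜ ⊔ T s

end

/-- The properties of the complete Boolean algebra. -/
structure CoreMO (W D : Type u) [LinearOrder W] [CompleteBooleanAlgebra D] : Prop where
  /-- the initial segments of `W` are countable -/
  seg : ∀ x : W, (Iio x).Countable
  /-- `ω₁` is preserved: functions of the extension from `ℕ` to `W` are bounded -/
  reg : ∀ g : ℕ → W → D, (∀ n x y, x ≠ y → g n x ⊓ g n y = ⊥) → ∀ c : D, c ≠ ⊥ →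
    ∃ (b : D) (z : W), b ≠ ⊥ ∧ b ≤ c ∧ ∀ n x, z ≤ x → b ⊓ g n x = ⊥
  /-- Martin's axiom for preorders on `W` and dense sets `{x | De a x}`, `a : W` -/
  ma : ∀ R : W → W → D, PreV R → CccV R → ∀ De : W → W → D, (∀ a x, (⨆ y, De a y ⊓ R y x) = ⊤) →
    ∀ c : D, c ≠ ⊥ → ∃ (b : D) (G : W → D), b ≠ ⊥ ∧ b ≤ c ∧ (∀ x y, b ⊓ (G x ⊓ R x y) ≤ G y) ∧
      (∀ x y, b ⊓ (G x ⊓ G y) ≤ ⨆ z, G z ⊓ (R z x ⊓ R z y)) ∧ ∀ a, b ≤ ⨆ x, G x ⊓ De a x
  /-- the Open Colouring Axiom for the set `X` of reals and the open graph with the code `U`: every `c ≠ ⊥`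
  has an extension `b` which forces that `{y a | a ∈ Z}` is a clique with `Z` an unbounded subset of `W`, or an
  extension `b` which forces that `X` is the union of the sets `{x | C n x}`, `n : ℕ`, without connected pairs -/
  oca : ∀ (X : (ℕ → D) → D) (U : List Bool → List Bool → D), (∀ x y, X x ⊓ eqV x y ≤ X y) →
    CodeV U → ∀ c : D, c ≠ ⊥ →
      (∃ (b : D) (Z : W → D) (y : W → ℕ → D), b ≠ ⊥ ∧ b ≤ c ∧ (∀ z, b ≤ ⨆ a : Ici z, Z a.1) ∧
        (∀ a, b ⊓ Z a ≤ X (y a)) ∧ ∀ a a', a ≠ a' → b ⊓ (Z a ⊓ Z a') ≤ opV U (y a) (y a')) ∨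
      (∃ (b : D) (C : ℕ → (ℕ → D) → D), b ≠ ⊥ ∧ b ≤ c ∧ (∀ n x y, C n x ⊓ eqV x y ≤ C n y) ∧
        (∀ x, b ⊓ X x ≤ ⨆ n, C n x) ∧
        ∀ n x y, b ⊓ (X x ⊓ X y) ⊓ (C n x ⊓ C n y) ⊓ opV U x y = ⊥)

end MAO
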