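import Pool.Agent.W_MP_3b51b4_h40.CoreMO

/-!
# MP_3b51b4_gt : covers by trees
-/

universe u

open Set

namespace MAO

section
variable {D : Type u} [CompleteBooleanAlgebra D]

theorem le_compl_sup_of {a b c : D} (h : a ⊓ b ≤ c) : a ≤ bᶜ ⊔ c := by
  calc a = a ⊓ (b ⊔ bᶜ) := by rw [sup_compl_eq_top, inf_top_eq]
    _ = (a ⊓ b) ⊔ (a ⊓ bᶜ) := inf_sup_left _ _ _
    _ ≤ bᶜ ⊔ c := sup_le (h.trans le_sup_right) (inf_le_right.trans le_sup_left)

theorem iniV_eqV (s : List Bool) (x y : ℕ → D) : iniV s y ⊓ eqV x y ≤ iniV s x := by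
  unfold iniV eqV
  refine le_iInf fun i => ?_
  refine (inf_le_inf (iInf_le _ i) (iInf_le _ i.1)).trans ?_
  split_ifs with h
  · refine (inf_le_inf_left _ inf_le_right).trans ?_
    rw [inf_sup_left, inf_compl_self, bot_sup_eq]
    exact inf_le_right
  · refine (inf_le_inf_left _ inf_le_left).trans ?_
    rw [inf_sup_left, compl_inf_self, sup_bot_eq]
    exact inf_le_right

theorem eqV_comm (x y : ℕ → D) : eqV x y = eqV y x := iInf_congr fun _ => inf_comm _ _

theorem brV_ext (T : List Bool → D) (x y : ℕ → D) : brV T x ⊓ eqV x y ≤ brV T y := by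
  refine le_iInf fun s => ?_
  have h1 : iniV s y ⊓ eqV x y ≤ iniV s x := iniV_eqV s x y
  refine (inf_le_inf_right _ (iInf_le _ s)).trans ?_
  refine le_compl_sup_of ?_
  calc ((iniV s x)ᶜ ⊔ T s) ⊓ eqV x y ⊓ iniV s y
      ≤ ((iniV s x)ᶜ ⊔ T s) ⊓ iniV s x := by
        refine le_inf (inf_le_left.trans inf_le_left) ?_
        exact (le_inf inf_le_right (inf_le_left.trans inf_le_right)).trans h1
    _ = T s ⊓ iniV s x := by rw [inf_sup_right, compl_inf_self, bot_sup_eq]
    _ ≤ T s := inf_le_left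

theorem brV_ini (T : List Bool → D) (x : ℕ → D) (s : List Bool) : brV T x ⊓ iniV s x ≤ T s := by
  refine (inf_le_inf_right _ (iInf_le _ s)).trans ?_
  rw [inf_sup_right, compl_inf_self, bot_sup_eq]
  exact inf_le_left

/-- the second alternative of the Open Colouring Axiom from trees without connected nodes -/
theorem cover_of_trees {X : (ℕ → D) → D} {U : List Bool → List Bool → D} {b : D}
    {T : ℕ → List Bool → D} (hcov : ∀ x, b ⊓ X x ≤ ⨆ n, brV (T n) x)
    (hT : ∀ n s t, b ⊓ (T n s ⊓ T n t ⊓ U s t) = ⊥) :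
    (∀ n x y, brV (T n) x ⊓ eqV x y ≤ brV (T n) y) ∧ (∀ x, b ⊓ X x ≤ ⨆ n, brV (T n) x) ∧
      ∀ n x y, b ⊓ (X x ⊓ X y) ⊓ (brV (T n) x ⊓ brV (T n) y) ⊓ opV U x y = ⊥ := by
  refine ⟨fun n x y => brV_ext _ _ _, hcov, fun n x y => ?_⟩
  rw [← le_bot_iff]
  unfold opV
  rw [inf_iSup_eq]
  refine iSup_le fun s => ?_
  rw [inf_iSup_eq]
  refine iSup_le fun t => ?_
  rw [← hT n s t]
  refine le_inf (inf_le_left.trans (inf_le_left.trans inf_le_left)) (le_inf (le_inf ?_ ?_)
    (inf_le_right.trans inf_le_left))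
  · refine le_trans (le_inf ?_ ?_) (brV_ini (T n) x s)
    · exact inf_le_left.trans (inf_le_right.trans inf_le_left)
    · exact inf_le_right.trans (inf_le_right.trans inf_le_left)
  · refine le_trans (le_inf ?_ ?_) (brV_ini (T n) y t)
    · exact inf_le_left.trans (inf_le_right.trans inf_le_right)
    · exact inf_le_right.trans (inf_le_right.trans inf_le_right)

end

end MAO
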