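import Pool.Agent.BVM_h40.Generic
import Pool.Agent.W_MP_3b51b4_h40.TreeMO

/-!
# MP_3b51b4_gt : tools for the CH lemma

Evaluation of names of reals in ultrafilters, generic ultrafilters, mixing, unbounded families.
-/

set_option autoImplicit false

universe u v

open Set BVM

namespace MAO

/-- the properties of the intermediate algebra: `ω₁` is preserved and `CH` holds -/
structure ChB (W B : Type u) [LinearOrder W] [CompleteBooleanAlgebra B] : Prop where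
  seg : ∀ x : W, (Iio x).Countable
  reg : ∀ g : ℕ → W → B, (∀ n x y, x ≠ y → g n x ⊓ g n y = ⊥) → ∀ c : B, c ≠ ⊥ →
    ∃ (b : B) (z : W), b ≠ ⊥ ∧ b ≤ c ∧ ∀ n x, z ≤ x → b ⊓ g n x = ⊥
  ch : ∃ z : W → ℕ → B, ∀ x : ℕ → B, (⨆ ξ, eqV x (z ξ)) = ⊤

section ev
variable {B : Type u} [CompleteBooleanAlgebra B] {lam : B → Prop}

open Classical in
/-- the initial segment of length `l` of the value of the name `x` -/
noncomputable def ev (lam : B → Prop) (x : ℕ → B) (l : ℕ) : List Bool :=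
  (List.range l).map fun i => decide (lam (x i))

theorem ev_length (lam : B → Prop) (x : ℕ → B) (l : ℕ) : (ev lam x l).length = l := by
  simp [ev]

theorem lam_iInf_fin (hl : IsUF lam) {ι : Type*} [Fintype ι] (a : ι → B) :
    lam (⨅ i, a i) ↔ ∀ i, lam (a i) := by
  constructor
  · intro h i
    exact hl.mono (iInf_le _ i) h
  · intro h
    have h1 := hl.iInf_finset (Finset.univ : Finset ι) a fun i _ => h i
    simpa using h1

theorem lam_iniV (hl : IsUF lam) {s : List Bool} {x : ℕ → B} :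
    lam (iniV s x) ↔ ∀ i : Fin s.length, (lam (x i) ↔ s.get i = true) := by
  unfold iniV
  rw [lam_iInf_fin hl]
  refine forall_congr' fun i => ?_
  split_ifs with h
  · exact ⟨fun h1 => ⟨fun _ => h, fun _ => h1⟩, fun h1 => h1.2 h⟩
  · rw [hl.compl_iff]
    exact ⟨fun h1 => ⟨fun h2 => (h1 h2).elim, fun h2 => (h h2).elim⟩, fun h1 h2 => h (h1.1 h2)⟩

theorem iniV_ev (hl : IsUF lam) {s : List Bool} {x : ℕ → B} :
    lam (iniV s x) ↔ s = ev lam x s.length := by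
  classical
  rw [lam_iniV hl]
  constructor
  · intro h
    refine List.ext_get (ev_length _ _ _).symm fun n h1 h2 => ?_
    have h3 := h ⟨n, h1⟩
    rw [Bool.eq_iff_iff, ← h3]
    simp [ev]
  · intro h i
    have h1 : s.get i = (ev lam x s.length).get ⟨i.1, by rw [ev_length]; exact i.2⟩ := by
      have : ∀ (t : List Bool) (ht : s = t), s.get i = t.get ⟨i.1, by rw [← ht]; exact i.2⟩ := by
        rintro t rfl
        rfl
      exact this _ h
    rw [h1]
    simp [ev]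

theorem ini_self (hl : IsUF lam) (x : ℕ → B) (l : ℕ) : lam (iniV (ev lam x l) x) := by
  rw [iniV_ev hl, ev_length]

theorem ev_prefix (lam : B → Prop) (x : ℕ → B) {l l' : ℕ} (h : l ≤ l') :
    ev lam x l <+: ev lam x l' := by
  have h1 : ev lam x l = (ev lam x l').take l := by
    unfold ev
    rw [← List.map_take, List.take_range, min_eq_left h]
  rw [h1]
  exact List.take_prefix _ _

theorem ini_prefix (hl : IsUF lam) {s s' : List Bool} {x : ℕ → B} (h : s <+: s')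
    (hs : lam (iniV s' x)) : lam (iniV s x) := by
  rw [lam_iniV hl] at hs ⊢
  obtain ⟨r, rfl⟩ := h
  intro i
  have h1 := hs ⟨i.1, i.2.trans_le (by rw [List.length_append]; exact Nat.le_add_right _ _)⟩
  rw [List.get_eq_getElem] at h1 ⊢
  rwa [List.getElem_append_left i.2] at h1

theorem prefix_of_ini (hl : IsUF lam) {s s' : List Bool} {x : ℕ → B} (hs : lam (iniV s x))
    (hs' : lam (iniV s' x)) (h : s.length ≤ s'.length) : s <+: s' := by
  rw [(iniV_ev hl).1 hs, (iniV_ev hl).1 hs']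
  exact ev_prefix lam x h

theorem lam_eqV' (hl : IsUF lam) {x y : ℕ → B} (h : lam (eqV x y)) (n : ℕ) :
    lam (x n) ↔ lam (y n) := by
  obtain ⟨h1, h2⟩ := hl.inf_iff.1 (hl.mono (iInf_le _ n) h)
  rw [hl.sup_iff, hl.compl_iff] at h1 h2
  exact ⟨fun h3 => h1.resolve_left fun h4 => h4 h3, fun h3 => h2.resolve_left fun h4 => h4 h3⟩

/-- ultrafilters which preserve countably many suprema -/
theorem exists_gen {b : B} (hb : b ≠ ⊥) {ι : Type*} [Countable ι] (S : ι → Set B) :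
    ∃ lam : B → Prop, IsUF lam ∧ lam b ∧ ∀ i, lam (sSup (S i)) → ∃ a ∈ S i, lam a := by
  rcases isEmpty_or_nonempty ι with h | h
  · obtain ⟨lam, hl, hlam⟩ := exists_isUF hb
    exact ⟨lam, hl, hlam, fun i => (h.false i).elim⟩
  · obtain ⟨f, hf⟩ := exists_surjective_nat ι
    obtain ⟨lam, hl, hlam, h1⟩ := rasiowa_sikorski hb (fun n => insert (sSup (S (f n)))ᶜ (S (f n)))
      (fun n => by rw [sSup_insert, sup_comm, sup_compl_eq_top])
    refine ⟨lam, hl, hlam, fun i hi => ?_⟩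
    obtain ⟨n, rfl⟩ := hf i
    obtain ⟨a, ha, hla⟩ := h1 n
    rcases ha with rfl | ha
    · exact (hl.compl_iff.1 hla hi).elim
    · exact ⟨a, ha, hla⟩

end ev

section mix
variable {B : Type u} [CompleteBooleanAlgebra B]

/-- the maximum principle -/
theorem full (φ : (ℕ → B) → B) (hφ : ∀ x y, φ x ⊓ eqV x y ≤ φ y) : ∃ x, ∀ y, φ y ≤ φ x := by
  classical
  let r : (ℕ → B) → (ℕ → B) → Prop := WellOrderingRel
  let b : (ℕ → B) → B := fun x => φ x ⊓ (⨆ y : {y // r y x}, φ y.1)ᶜ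
  have hdis : ∀ x y, x ≠ y → b x ⊓ b y = ⊥ := by
    have key : ∀ x y, r x y → b x ⊓ b y = ⊥ := by
      intro x y hxy
      rw [← le_bot_iff]
      calc b x ⊓ b y ≤ (⨆ y : {z // r z y}, φ y.1) ⊓ (⨆ y : {z // r z y}, φ y.1)ᶜ := by
            refine le_inf ?_ (inf_le_right.trans inf_le_right)
            exact inf_le_left.trans (inf_le_left.trans
              (le_iSup (fun z : {z // r z y} => φ z.1) ⟨x, hxy⟩))
        _ = ⊥ := inf_compl_self _
        _ ≤ ⊥ := le_rfl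
    intro x y hxy
    rcases trichotomous_of r x y with h | h | h
    · exact key x y h
    · exact (hxy h).elim
    · rw [inf_comm]
      exact key y x h
  let m : ℕ → B := fun n => ⨆ x : ℕ → B, b x ⊓ x n
  have hm : ∀ x, b x ≤ eqV x m := by
    intro x
    refine le_iInf fun n => le_inf (le_compl_sup_of ?_) (le_compl_sup_of ?_)
    · exact le_iSup (fun x : ℕ → B => b x ⊓ x n) x
    · rw [inf_iSup_eq]
      refine iSup_le fun y => ?_
      by_cases h : x = y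
      · rw [h]
        exact inf_le_right.trans inf_le_right
      · rw [← inf_assoc, hdis x y h, bot_inf_eq]
        exact bot_le
  refine ⟨m, fun x => ?_⟩
  have hwf : WellFounded r := WellOrderingRel.isWellOrder.wf
  induction x using hwf.induction with
  | _ x ih =>
    calc φ x = φ x ⊓ ((⨆ y : {y // r y x}, φ y.1)ᶜ ⊔ ⨆ y : {y // r y x}, φ y.1) := by
          rw [sup_comm, sup_compl_eq_top, inf_top_eq]
      _ = b x ⊔ φ x ⊓ ⨆ y : {y // r y x}, φ y.1 := inf_sup_left _ _ _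
      _ ≤ φ m := by
          refine sup_le ?_ (inf_le_right.trans (iSup_le fun y => ih y.1 y.2))
          exact (le_inf inf_le_left (hm x)).trans (hφ x m)

/-- the maximum principle, second form -/
theorem full_ge (φ : (ℕ → B) → B) (hφ : ∀ x y, φ x ⊓ eqV x y ≤ φ y) {c : B}
    (hc : ∀ b, b ≠ ⊥ → b ≤ c → ∃ x, b ⊓ φ x ≠ ⊥) : ∃ x, c ≤ φ x := by
  obtain ⟨x, hx⟩ := full φ hφ
  refine ⟨x, ?_⟩
  by_contra hcx
  have h1 : c ⊓ (φ x)ᶜ ≠ ⊥ := by
    intro h
    apply hcx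
    rw [← disjoint_compl_right_iff, disjoint_iff]
    exact h
  obtain ⟨y, hy⟩ := hc _ h1 inf_le_left
  apply hy
  rw [← le_bot_iff]
  calc c ⊓ (φ x)ᶜ ⊓ φ y ≤ (φ x)ᶜ ⊓ φ x := inf_le_inf inf_le_right (hx y)
    _ = ⊥ := compl_inf_self _
    _ ≤ ⊥ := le_rfl

end mix

section unb
variable {W B : Type u} [LinearOrder W] [CompleteBooleanAlgebra B] {J : Type v}

/-- `c` forces that the family `A` is unbounded with respect to `ρ` -/
def Unb (ρ : J → W) (A : J → B) (c : B) : Prop := ∀ δ : W, c ≤ ⨆ j : {j : J // δ ≤ ρ j}, A j.1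

theorem Unb.mono {ρ : J → W} {A A' : J → B} {c c' : B} (h : Unb ρ A c) (hc : c' ≤ c)
    (hA : ∀ j, A j ≤ A' j) : Unb ρ A' c' := fun δ =>
  hc.trans ((h δ).trans (iSup_mono fun j => hA j.1))

theorem Unb.mono_le {ρ : J → W} {A A' : J → B} {c : B} (h : Unb ρ A c) 
    (hA : ∀ j, c ⊓ A j ≤ A' j) : Unb ρ A' c := fun δ => by
  calc c ≤ c ⊓ ⨆ j : {j : J // δ ≤ ρ j}, A j.1 := le_inf le_rfl (h δ)
    _ = ⨆ j : {j : J // δ ≤ ρ j}, c ⊓ A j.1 := inf_iSup_eq _ _
    _ ≤ _ := iSup_mono fun j => hA j.1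

/-- there is an element beyond `δ` -/
theorem Unb.exists {ρ : J → W} {A : J → B} {c : B} (h : Unb ρ A c) (hc : c ≠ ⊥) (δ : W) :
    ∃ j, δ ≤ ρ j ∧ c ⊓ A j ≠ ⊥ := by
  by_contra hno
  push Not at hno
  apply hc
  rw [← le_bot_iff]
  calc c ≤ c ⊓ ⨆ j : {j : J // δ ≤ ρ j}, A j.1 := le_inf le_rfl (h δ)
    _ = ⨆ j : {j : J // δ ≤ ρ j}, c ⊓ A j.1 := inf_iSup_eq _ _
    _ ≤ ⊥ := iSup_le fun j => (hno j.1 j.2).le

/-- a family is unbounded below `c` if this holds densely often -/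
theorem Unb.of_dense {ρ : J → W} {A : J → B} {c : B}
    (h : ∀ b, b ≠ ⊥ → b ≤ c → ∀ δ, ∃ j, δ ≤ ρ j ∧ b ⊓ A j ≠ ⊥) : Unb ρ A c := by
  intro δ
  by_contra hcx
  have h1 : c ⊓ (⨆ j : {j : J // δ ≤ ρ j}, A j.1)ᶜ ≠ ⊥ := by
    intro h
    apply hcx
    rw [← disjoint_compl_right_iff, disjoint_iff]
    exact h
  obtain ⟨j, hj, hj'⟩ := h _ h1 inf_le_left δ
  apply hj'
  rw [← le_bot_iff]
  calc c ⊓ (⨆ j : {j : J // δ ≤ ρ j}, A j.1)ᶜ ⊓ A j
      ≤ (⨆ j : {j : J // δ ≤ ρ j}, A j.1)ᶜ ⊓ ⨆ j : {j : J // δ ≤ ρ j}, A j.1 :=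
        inf_le_inf inf_le_right (le_iSup (fun j : {j : J // δ ≤ ρ j} => A j.1) ⟨j, hj⟩)
    _ = ⊥ := compl_inf_self _
    _ ≤ ⊥ := le_rfl

variable (reg : ∀ g : ℕ → W → B, (∀ n x y, x ≠ y → g n x ⊓ g n y = ⊥) → ∀ c : B, c ≠ ⊥ →
    ∃ (b : B) (z : W), b ≠ ⊥ ∧ b ≤ c ∧ ∀ n x, z ≤ x → b ⊓ g n x = ⊥)
include reg

/-- there is no last element -/
theorem gt_of_reg [Nontrivial B] (x : W) : ∃ y, x < y := by
  classical
  obtain ⟨b, z, hb0, _, hb⟩ := reg (fun _ y => if y = x then ⊤ else ⊥) (by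
    intro n a a' haa
    by_cases h1 : a = x
    · rw [if_neg (fun h2 : a' = x => haa (h1.trans h2.symm)), inf_bot_eq]
    · rw [if_neg h1, bot_inf_eq]) ⊤ top_ne_bot
  refine ⟨z, lt_of_not_ge fun hzx => hb0 ?_⟩
  have h1 := hb 0 x hzx
  rwa [if_pos rfl, inf_top_eq] at h1

variable [WellFoundedLT W]

/-- a countable union of bounded families is bounded -/
theorem bdd_iUnion {ι : Type*} [Countable ι] {ρ : J → W} (S : ι → J → B) {c : B} (hc : c ≠ ⊥)
    (hS : ∀ i c', c' ≠ ⊥ → c' ≤ c → ¬ Unb ρ (S i) c') :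
    ∃ (b : B) (z : W), b ≠ ⊥ ∧ b ≤ c ∧ ∀ i j, z ≤ ρ j → b ⊓ S i j = ⊥ := by
  rcases isEmpty_or_nonempty ι with hι | hι
  · obtain ⟨b, z, hb0, hbc, _⟩ := reg (fun _ _ => ⊥) (fun _ _ _ _ => inf_bot_eq _) c hc
    exact ⟨b, z, hb0, hbc, fun i => (hι.false i).elim⟩
  · obtain ⟨f, hf⟩ := exists_surjective_nat ι
    let u' : ℕ → W → B := fun n δ => ⨆ j : {j : J // δ ≤ ρ j}, S (f n) j.1
    have hanti : ∀ n δ δ', δ ≤ δ' → u' n δ' ≤ u' n δ := by
      intro n δ δ' h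
      exact iSup_le fun j => le_iSup (fun j : {j : J // δ ≤ ρ j} => S (f n) j.1) ⟨j.1, h.trans j.2⟩
    let g : ℕ → W → B := fun n δ => (u' n δ)ᶜ ⊓ ⨅ δ' : Iio δ, u' n δ'.1
    have hg : ∀ n x y, x ≠ y → g n x ⊓ g n y = ⊥ := by
      have key : ∀ n x y, x < y → g n x ⊓ g n y = ⊥ := by
        intro n x y hxy
        rw [← le_bot_iff]
        calc g n x ⊓ g n y ≤ (u' n x)ᶜ ⊓ u' n x := by
              refine inf_le_inf inf_le_left (inf_le_right.trans ?_)
              exact iInf_le (fun δ' : Iio y => u' n δ'.1) ⟨x, hxy⟩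
          _ = ⊥ := compl_inf_self _
          _ ≤ ⊥ := le_rfl
      intro n x y hxy
      rcases lt_or_gt_of_ne hxy with h | h
      · exact key n x y h
      · rw [inf_comm]
        exact key n y x h
    obtain ⟨b, z, hb0, hbc, hb⟩ := reg g hg c hc
    have h1 : ∀ n, b ⊓ u' n z = ⊥ := by
      intro n
      by_contra hne
      refine hS (f n) (b ⊓ u' n z) hne (inf_le_left.trans hbc) fun δ => ?_
      induction δ using WellFoundedLT.induction with
      | _ δ ih =>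
        rcases lt_or_ge δ z with hδ | hδ
        · exact inf_le_right.trans (hanti n δ z hδ.le)
        · have h2 : b ⊓ u' n z ≤ ⨅ δ' : Iio δ, u' n δ'.1 := le_iInf fun δ' => ih δ'.1 δ'.2
          have h3 : b ⊓ u' n z ⊓ (u' n δ)ᶜ = ⊥ := by
            rw [← le_bot_iff, ← hb n δ hδ]
            exact le_inf (inf_le_left.trans inf_le_left) (le_inf inf_le_right
              (inf_le_left.trans h2))
          change b ⊓ u' n z ≤ u' n δ
          rw [← disjoint_compl_right_iff, disjoint_iff]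
          exact h3
    refine ⟨b, z, hb0, hbc, fun i j hj => ?_⟩
    obtain ⟨n, rfl⟩ := hf i
    rw [← le_bot_iff, ← h1 n]
    exact inf_le_inf_left _ (le_iSup (fun j : {j : J // z ≤ ρ j} => S (f n) j.1) ⟨j, hj⟩)

/-- the pigeonhole principle -/
theorem Unb.pigeon {ι : Type*} [Countable ι] {ρ : J → W} {A : J → B} {c : B} (hA : Unb ρ A c)
    (hc : c ≠ ⊥) (P : ι → J → B) (hP : ∀ j, c ⊓ A j ≤ ⨆ i, P i j) :
    ∃ (i : ι) (c' : B), c' ≠ ⊥ ∧ c' ≤ c ∧ Unb ρ (fun j => A j ⊓ P i j) c' := by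
  by_contra hno
  push Not at hno
  obtain ⟨b, z, hb0, hbc, hb⟩ := bdd_iUnion reg (ρ := ρ) (fun i j => A j ⊓ P i j) hc
    fun i c' h1 h2 => hno i c' h1 h2
  apply hb0
  rw [← le_bot_iff]
  calc b ≤ b ⊓ ⨆ j : {j : J // z ≤ ρ j}, A j.1 := le_inf le_rfl (hbc.trans (hA z))
    _ = ⨆ j : {j : J // z ≤ ρ j}, b ⊓ A j.1 := inf_iSup_eq _ _
    _ ≤ ⊥ := by
        refine iSup_le fun j => ?_
        calc b ⊓ A j.1 ≤ (b ⊓ A j.1) ⊓ ⨆ i, P i j.1 :=
              le_inf le_rfl ((inf_le_inf_right _ hbc).trans (hP j.1))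
          _ = ⨆ i, (b ⊓ A j.1) ⊓ P i j.1 := inf_iSup_eq _ _
          _ ≤ ⊥ := by
              refine iSup_le fun i => ?_
              rw [inf_assoc]
              exact (hb i j.1 j.2).le

end unb

end MAO
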