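import Pool.Agent.W_MP_3b51b4_h40.CHL1

/-!
# MP_3b51b4_gt : the CH lemma, the choice of the reals

Closed subsets of finite powers of `2^ω` are coded by functions on `Lam`: a node consists of `k` finite sequences and
one more.  `secV z xs` is the (pruned) tree of the section of the closed set `z` over the point `xs`.
-/

set_option autoImplicit false

universe u v

open Set BVM

namespace MAO

/-- the nodes -/
abbrev Lam : Type := Σ k : ℕ, (Fin k → List Bool) × List Bool

section sec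
variable {B : Type u} [CompleteBooleanAlgebra B] {lam : B → Prop}

/-- the nodes of the level `l` above `s` -/
abbrev Nd (k : ℕ) (s : List Bool) (l : ℕ) : Type :=
  {u : (Fin k → List Bool) × List Bool // (∀ j, (u.1 j).length = s.length + l) ∧
    u.2.length = s.length + l ∧ s <+: u.2}

/-- the value of a node -/
def ndV (z : Lam → B) {k : ℕ} (xs : Fin k → ℕ → B) (u : (Fin k → List Bool) × List Bool) : B :=
  z ⟨k, u⟩ ⊓ ⨅ j, iniV (u.1 j) (xs j)

/-- the tree of the section -/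
def secV (z : Lam → B) {k : ℕ} (xs : Fin k → ℕ → B) (s : List Bool) : B :=
  ⨅ l : ℕ, ⨆ u : Nd k s l, ndV z xs u.1

/-- the truth value of: `T` is independent -/
def indV (U : List Bool → List Bool → B) (T : List Bool → B) : B :=
  ⨅ st : List Bool × List Bool, (T st.1 ⊓ T st.2 ⊓ U st.1 st.2)ᶜ

theorem indV_compl (U : List Bool → List Bool → B) (T : List Bool → B) :
    (indV U T)ᶜ = ⨆ st : List Bool × List Bool, T st.1 ⊓ T st.2 ⊓ U st.1 st.2 := by
  unfold indV
  rw [compl_iInf]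
  exact iSup_congr fun st => compl_compl _

/-- the tree is replaced by the empty tree if it is not independent -/
def cutV (U : List Bool → List Bool → B) (T : List Bool → B) (s : List Bool) : B := T s ⊓ indV U T

theorem cutV_ind (U : List Bool → List Bool → B) (T : List Bool → B) (s t : List Bool) :
    cutV U T s ⊓ cutV U T t ⊓ U s t = ⊥ := by
  rw [← le_bot_iff]
  calc cutV U T s ⊓ cutV U T t ⊓ U s t ≤ (T s ⊓ T t ⊓ U s t) ⊓ (T s ⊓ T t ⊓ U s t)ᶜ := by
        refine le_inf (inf_le_inf_right _ (inf_le_inf inf_le_left inf_le_left)) ?_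
        exact inf_le_left.trans (inf_le_left.trans (inf_le_right.trans (iInf_le _ (s, t))))
    _ = ⊥ := inf_compl_self _
    _ ≤ ⊥ := le_rfl

theorem brV_cutV (U : List Bool → List Bool → B) (T : List Bool → B) (x : ℕ → B) :
    indV U T ⊓ brV T x ≤ brV (cutV U T) x := by
  refine le_iInf fun s => le_compl_sup_of ?_
  refine le_inf ?_ (inf_le_left.trans inf_le_left)
  exact (inf_le_inf_right _ inf_le_right).trans (brV_ini T x s)

/-- the truth value of the equality of codes -/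
def eqL (F G : Lam → B) : B := ⨅ a, ((F a)ᶜ ⊔ G a) ⊓ ((G a)ᶜ ⊔ F a)

theorem lam_eqL (hl : IsUF lam) {F G : Lam → B} (h : lam (eqL F G)) (a : Lam) :
    lam (F a) ↔ lam (G a) := by
  obtain ⟨h1, h2⟩ := hl.inf_iff.1 (hl.mono (iInf_le _ a) h)
  rw [hl.sup_iff, hl.compl_iff] at h1 h2
  exact ⟨fun h3 => h1.resolve_left fun h4 => h4 h3, fun h3 => h2.resolve_left fun h4 => h4 h3⟩

instance : Countable Lam := inferInstance

/-- the enumeration of the codes -/
theorem exists_enum {W : Type u} [LinearOrder W] (h : ChB W B) :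
    ∃ z : W → Lam → B, ∀ F : Lam → B, (⨆ ξ, eqL F (z ξ)) = ⊤ := by
  obtain ⟨z, hz⟩ := h.ch
  obtain ⟨e, he⟩ := exists_injective_nat Lam
  refine ⟨fun ξ a => z ξ (e a), fun F => ?_⟩
  rw [eq_top_iff, ← hz fun n => ⨆ a : {a : Lam // e a = n}, F a.1]
  refine iSup_mono fun ξ => ?_
  refine le_iInf fun a => ?_
  have h1 : (⨆ b : {b : Lam // e b = e a}, F b.1) = F a := by
    apply le_antisymm
    · exact iSup_le fun b => (congrArg F (he b.2)).le
    · exact le_iSup (fun b : {b : Lam // e b = e a} => F b.1) ⟨a, rfl⟩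
  refine (iInf_le _ (e a)).trans ?_
  beta_reduce
  rw [h1]

end sec

section choice
variable {W B : Type u} [LinearOrder W] [CompleteBooleanAlgebra B]

/-- the reals `Y ξ` in `X` avoid the independent sections with smaller parameters -/
structure Avd (X : (ℕ → B) → B) (U : List Bool → List Bool → B) (z : W → Lam → B) (c : B)
    (Y : W → ℕ → B) : Prop where
  mem : ∀ ξ, c ≤ X (Y ξ)
  avd : ∀ (ξ η : W) (k : ℕ) (σ : Fin k → W), η < ξ → (∀ j, σ j < ξ) →
    c ⊓ (indV U (secV (z η) fun j => Y (σ j)) ⊓ brV (secV (z η) fun j => Y (σ j)) (Y ξ)) = ⊥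

/-- recursion -/
theorem exists_rec {α : Type v} [WellFoundedLT W] (P : ∀ ξ : W, (Iio ξ → α) → α → Prop)
    (hP : ∀ ξ f, ∃ y, P ξ f y) : ∃ Y : W → α, ∀ ξ, P ξ (fun η => Y η.1) (Y ξ) := by
  choose g hg using hP
  let Y : W → α := WellFounded.fix (C := fun _ => α) (wellFounded_lt (α := W))
    fun ξ ih => g ξ fun η => ih η.1 η.2
  refine ⟨Y, fun ξ => ?_⟩
  have h1 : Y ξ = g ξ fun η => Y η.1 := by
    change WellFounded.fix _ _ _ = _
    rw [WellFounded.fix_eq]
  rw [h1]
  exact hg ξ _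

theorem exists_avd [WellFoundedLT W] (seg : ∀ x : W, (Iio x).Countable) {X : (ℕ → B) → B}
    {U : List Bool → List Bool → B} (hX : ∀ x y, X x ⊓ eqV x y ≤ X y) (z : W → Lam → B) {c : B}
    (hno : ∀ b : B, b ≠ ⊥ → b ≤ c → ∀ T : ℕ → List Bool → B,
      (∀ n s t, b ⊓ (T n s ⊓ T n t ⊓ U s t) = ⊥) →
        ∃ x : ℕ → B, b ⊓ (X x ⊓ ⨅ n, (brV (T n) x)ᶜ) ≠ ⊥) :
    ∃ Y : W → ℕ → B, Avd X U z c Y := by
  -- the trees at `ξ`
  let Pr : W → Type u := fun ξ => Iio ξ × Σ k : ℕ, (Fin k → Iio ξ)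
  let Tr : ∀ ξ : W, (Iio ξ → ℕ → B) → Pr ξ → List Bool → B := fun ξ f a =>
    cutV U (secV (z a.1.1) fun j => f (a.2.2 j))
  obtain ⟨Y, hY⟩ := exists_rec (W := W) (α := ℕ → B) (fun ξ f y => c ≤ X y ∧
      ∀ a : Pr ξ, c ≤ (brV (Tr ξ f a) y)ᶜ) (by
    intro ξ f
    have : Countable (Iio ξ) := (seg ξ).to_subtype
    have hcount : Countable (Pr ξ) := inferInstance
    obtain ⟨e, he⟩ := exists_injective_nat (Pr ξ)
    let T : ℕ → List Bool → B := fun n s => ⨆ a : {a : Pr ξ // e a = n}, Tr ξ f a.1 s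
    have hT : ∀ a : Pr ξ, T (e a) = Tr ξ f a := by
      intro a
      funext s
      apply le_antisymm
      · exact iSup_le fun b => by rw [he b.2]
      · exact le_iSup (fun b : {b : Pr ξ // e b = e a} => Tr ξ f b.1 s) ⟨a, rfl⟩
    have hTi : ∀ n s t, T n s ⊓ T n t ⊓ U s t = ⊥ := by
      intro n s t
      by_cases hn : ∃ a, e a = n
      · obtain ⟨a, rfl⟩ := hn
        rw [hT a]
        exact cutV_ind _ _ _ _
      · have h1 : T n s = ⊥ := by
          rw [← le_bot_iff]
          exact iSup_le fun a => (hn ⟨a.1, a.2⟩).elim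
        rw [h1, bot_inf_eq, bot_inf_eq]
    obtain ⟨y, hy⟩ := full_ge (fun y => X y ⊓ ⨅ n, (brV (T n) y)ᶜ) (fun x y => by
        refine le_inf ((inf_le_inf_right _ inf_le_left).trans (hX x y)) (le_iInf fun n => ?_)
        have h1 : brV (T n) y ⊓ eqV x y ≤ brV (T n) x := by
          rw [eqV_comm]
          exact brV_ext _ _ _
        have h2 : (brV (T n) x)ᶜ ⊓ eqV x y ≤ (brV (T n) y)ᶜ := by
          rw [le_compl_iff_disjoint_right, disjoint_iff, ← le_bot_iff,
            ← compl_inf_self (brV (T n) x)]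
          exact le_inf (inf_le_left.trans inf_le_left)
            ((le_inf inf_le_right (inf_le_left.trans inf_le_right)).trans h1)
        exact (inf_le_inf_right _ (inf_le_right.trans (iInf_le _ n))).trans h2)
      (c := c) (fun b hb hbc => hno b hb hbc T fun n s t => by rw [hTi, inf_bot_eq])
    refine ⟨y, hy.trans inf_le_left, fun a => ?_⟩
    rw [← hT a]
    exact hy.trans (inf_le_right.trans (iInf_le _ (e a))))
  refine ⟨Y, fun ξ => (hY ξ).1, fun ξ η k σ hη hσ => ?_⟩
  have h1 := (hY ξ).2 (⟨η, hη⟩, ⟨k, fun j => ⟨σ j, hσ j⟩⟩)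
  rw [← le_bot_iff]
  calc c ⊓ (indV U (secV (z η) fun j => Y (σ j)) ⊓ brV (secV (z η) fun j => Y (σ j)) (Y ξ))
      ≤ (brV (cutV U (secV (z η) fun j => Y (σ j))) (Y ξ))ᶜ ⊓
          brV (cutV U (secV (z η) fun j => Y (σ j))) (Y ξ) :=
        inf_le_inf h1 (brV_cutV _ _ _)
    _ = ⊥ := compl_inf_self _
    _ ≤ ⊥ := le_rfl

end choice

end MAO
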