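import Pool.Agent.W_MP_3b51b4_h40.CHL2

/-!
# MP_3b51b4_gt : the CH lemma, the main induction

`ξ p i`, `i < m`, is the `i`-th point of the condition `p`.
-/

set_option autoImplicit false

universe u v

open Set BVM

namespace MAO

section
variable {W B : Type u} [LinearOrder W] [CompleteBooleanAlgebra B] {J : Type v}

/-- the closed set of the points `(Y (ξ p 0), …, Y (ξ p i))`, `p ∈ A` -/
def clV (Y : W → ℕ → B) (ξ : J → ℕ → W) (A : J → B) (a : Lam) : B :=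
  ⨆ p : J, A p ⊓ (iniV a.2.2 (Y (ξ p a.1)) ⊓ ⨅ j : Fin a.1, iniV (a.2.1 j) (Y (ξ p j)))

/-- a point is in its section -/
theorem le_brV {Y : W → ℕ → B} {ξ : J → ℕ → W} {A : J → B} {z : Lam → B} {c : B}
    (hz : c ≤ eqL (clV Y ξ A) z) (p : J) (i : ℕ) :
    c ⊓ A p ≤ brV (secV z fun j : Fin i => Y (ξ p j)) (Y (ξ p i)) := by
  refine le_iInf fun s => le_compl_sup_of ?_
  refine le_iInf fun l => ?_
  rw [le_iff_ultra]
  intro lam hl hlam
  obtain ⟨h1, h2⟩ := hl.inf_iff.1 hlam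
  obtain ⟨h3, h4⟩ := hl.inf_iff.1 h1
  have h5 : s <+: ev lam (Y (ξ p i)) (s.length + l) :=
    prefix_of_ini hl h2 (ini_self hl _ _) (by rw [ev_length]; exact Nat.le_add_right _ _)
  refine hl.mono (le_iSup (fun u : Nd i s l => ndV z (fun j : Fin i => Y (ξ p j)) u.1)
    ⟨(fun j => ev lam (Y (ξ p j)) (s.length + l), ev lam (Y (ξ p i)) (s.length + l)),
      fun j => ev_length _ _ _, ev_length _ _ _, h5⟩) ?_
  refine hl.inf ((lam_eqL hl (hl.mono hz h3) _).1 ?_) ((lam_iInf_fin hl _).2 fun j => ini_self hl _ _)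
  exact hl.mono (le_iSup (fun q : J => A q ⊓ (iniV (ev lam (Y (ξ p i)) (s.length + l)) (Y (ξ q i)) ⊓
    ⨅ j : Fin i, iniV (ev lam (Y (ξ p j)) (s.length + l)) (Y (ξ q j)))) p)
    (hl.inf h4 (hl.inf (ini_self hl _ _) ((lam_iInf_fin hl _).2 fun j => ini_self hl _ _)))

theorem main_ind [WellFoundedLT W] [Nontrivial B] (h : ChB W B) {X : (ℕ → B) → B}
    {U : List Bool → List Bool → B} (hU : CodeV U) {z : W → Lam → B}
    (hz : ∀ F : Lam → B, (⨆ ξ, eqL F (z ξ)) = ⊤) {c : B} {Y : W → ℕ → B} (hY : Avd X U z c Y)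
    {ρ : J → W} {ξ : J → ℕ → W} {m : ℕ} (hρ : ∀ p i, i < m → ρ p ≤ ξ p i)
    (hξ : ∀ p i j, i < j → j < m → ξ p i < ξ p j) :
    ∀ i ≤ m, ∀ (A : J → B) (b : B), b ≠ ⊥ → b ≤ c → Unb ρ A b →
      ∃ p q, b ⊓ (A p ⊓ A q ⊓ ⨅ j : Fin i, opV U (Y (ξ p j)) (Y (ξ q j))) ≠ ⊥ := by
  classical
  intro i
  induction i with
  | zero =>
    intro _ A b hb _ hA
    obtain ⟨b', w, _⟩ := h.reg (fun _ _ => ⊥) (fun _ _ _ _ => inf_bot_eq _) ⊤ top_ne_bot
    obtain ⟨p, _, hp⟩ := hA.exists hb w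
    refine ⟨p, p, ?_⟩
    rw [inf_idem, iInf_of_empty, inf_top_eq]
    exact hp
  | succ i ih =>
    intro him A b hb hbc hA
    have him' : i < m := him
    -- the code of the closure
    have h1 : ∃ η, b ⊓ eqL (clV Y ξ A) (z η) ≠ ⊥ := by
      by_contra hno
      push Not at hno
      apply hb
      rw [← inf_top_eq b, ← hz (clV Y ξ A), inf_iSup_eq, ← le_bot_iff]
      exact iSup_le fun η => (hno η).le
    obtain ⟨η, hη⟩ := h1
    set b1 := b ⊓ eqL (clV Y ξ A) (z η) with hb1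
    have hb1b : b1 ≤ b := inf_le_left
    have hb1z : b1 ≤ eqL (clV Y ξ A) (z η) := inf_le_right
    -- beyond `η`
    let A1 : J → B := fun p => if η < ρ p then A p else ⊥
    obtain ⟨η', hη'⟩ := gt_of_reg h.reg η
    have hA1 : Unb ρ A1 b1 := by
      intro δ
      refine (hb1b.trans (hA (max δ η'))).trans (iSup_le fun j => ?_)
      refine le_iSup_of_le (⟨j.1, (le_max_left _ _).trans j.2⟩ : {j : J // δ ≤ ρ j}) ?_
      have h2 : η < ρ j.1 := hη'.trans_le ((le_max_right _ _).trans j.2)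
      change A j.1 ≤ if η < ρ j.1 then A j.1 else ⊥
      rw [if_pos h2]
    -- the sections are not independent
    let T : J → List Bool → B := fun p => secV (z η) fun j : Fin i => Y (ξ p j)
    have hP : ∀ p, b1 ⊓ A1 p ≤ ⨆ st : List Bool × List Bool, T p st.1 ⊓ T p st.2 ⊓ U st.1 st.2 := by
      intro p
      change b1 ⊓ (if η < ρ p then A p else ⊥) ≤ _
      split_ifs with hp
      · rw [← indV_compl]
        have h2 := hY.avd (ξ p i) η i (fun j => ξ p j) (hp.trans_le (hρ p i him'))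
          (fun j => hξ p j i j.2 him')
        rw [le_compl_iff_disjoint_right, disjoint_iff, ← le_bot_iff, ← h2]
        refine le_inf (inf_le_left.trans (inf_le_left.trans (hb1b.trans hbc))) (le_inf inf_le_right ?_)
        exact inf_le_left.trans (le_brV hb1z p i)
      · rw [inf_bot_eq]
        exact bot_le
    obtain ⟨⟨s, t⟩, b2, hb2, hb21, hA2⟩ := Unb.pigeon h.reg hA1 hη
      (fun (st : List Bool × List Bool) p => T p st.1 ⊓ T p st.2 ⊓ U st.1 st.2) hP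
    obtain ⟨p2, q2, hd⟩ := ih him'.le _ b2 hb2 (hb21.trans (hb1b.trans hbc)) hA2
    -- a generic ultrafilter
    obtain ⟨lam, hl, hlam, hg⟩ := exists_gen hd
      (Sum.elim (fun j : Fin i => range fun st : List Bool × List Bool =>
          U st.1 st.2 ⊓ (iniV st.1 (Y (ξ p2 j)) ⊓ iniV st.2 (Y (ξ q2 j))))
        (Sum.elim (fun l : ℕ => range fun u : Nd i s l => ndV (z η) (fun j : Fin i => Y (ξ p2 j)) u.1)
          (Sum.elim
            (fun l : ℕ => range fun u : Nd i t l => ndV (z η) (fun j : Fin i => Y (ξ q2 j)) u.1)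
            (fun a : Lam => range fun p : J => A p ⊓ (iniV a.2.2 (Y (ξ p a.1)) ⊓
              ⨅ j : Fin a.1, iniV (a.2.1 j) (Y (ξ p j)))))))
    obtain ⟨hl2, hlr⟩ := hl.inf_iff.1 hlam
    obtain ⟨hlpq, hlop⟩ := hl.inf_iff.1 hlr
    obtain ⟨hlp, hlq⟩ := hl.inf_iff.1 hlpq
    obtain ⟨_, hlp'⟩ := hl.inf_iff.1 hlp
    obtain ⟨hlTp, hlU⟩ := hl.inf_iff.1 hlp'
    obtain ⟨hlTs, _⟩ := hl.inf_iff.1 hlTp
    obtain ⟨_, hlq'⟩ := hl.inf_iff.1 hlq
    obtain ⟨hlTq, _⟩ := hl.inf_iff.1 hlq'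
    obtain ⟨_, hlTt⟩ := hl.inf_iff.1 hlTq
    have hst : s.length = t.length := by
      by_contra hne
      have h2 := hU.len s t hne
      exact hl.bot (h2 ▸ hlU)
    -- the strings for the first coordinates
    have h3 : ∀ j : Fin i, ∃ st : List Bool × List Bool, lam (U st.1 st.2) ∧
        lam (iniV st.1 (Y (ξ p2 j))) ∧ lam (iniV st.2 (Y (ξ q2 j))) := by
      intro j
      have h4 : lam (sSup (range fun st : List Bool × List Bool =>
          U st.1 st.2 ⊓ (iniV st.1 (Y (ξ p2 j)) ⊓ iniV st.2 (Y (ξ q2 j))))) := by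
        refine hl.mono (le_of_eq ?_) ((lam_iInf_fin hl _).1 hlop j)
        rw [← iSup, iSup_prod]
        rfl
      obtain ⟨_, ⟨st, rfl⟩, h5⟩ := hg (Sum.inl j) h4
      obtain ⟨h6, h7⟩ := hl.inf_iff.1 h5
      exact ⟨st, h6, hl.inf_iff.1 h7⟩
    choose st hst1 hst2 hst3 using h3
    let l : ℕ := Finset.univ.sup fun j : Fin i => max (st j).1.length (st j).2.length
    have hl1 : ∀ j, (st j).1.length ≤ l := fun j =>
      (le_max_left _ _).trans (Finset.le_sup (f := fun j : Fin i => max (st j).1.length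
        (st j).2.length) (Finset.mem_univ j))
    have hl1' : ∀ j, (st j).2.length ≤ l := fun j =>
      (le_max_right _ _).trans (Finset.le_sup (f := fun j : Fin i => max (st j).1.length
        (st j).2.length) (Finset.mem_univ j))
    -- the node of `p`
    have key : ∀ (q : J) (s : List Bool), (∀ l, lam (⨆ u : Nd i s l,
        ndV (z η) (fun j : Fin i => Y (ξ q j)) u.1) → ∃ u : Nd i s l,
          lam (ndV (z η) (fun j : Fin i => Y (ξ q j)) u.1)) → lam (T q s) →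
        ∃ p, lam (A p) ∧ lam (iniV s (Y (ξ p i))) ∧ ∀ (j : Fin i) (a : List Bool),
          a.length ≤ l → lam (iniV a (Y (ξ q j))) → lam (iniV a (Y (ξ p j))) := by
      intro q s hgen hT
      obtain ⟨u, hu⟩ := hgen l (hl.mono (iInf_le _ l) hT)
      obtain ⟨hu1, hu2⟩ := hl.inf_iff.1 hu
      rw [lam_iInf_fin hl] at hu2
      have h4 : lam (clV Y ξ A ⟨i, u.1⟩) :=
        (lam_eqL hl (hl.mono (hb21.trans hb1z) hl2) _).2 hu1
      obtain ⟨_, ⟨p, rfl⟩, h5⟩ := hg (Sum.inr (Sum.inr (Sum.inr ⟨i, u.1⟩))) h4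
      obtain ⟨h6, h7⟩ := hl.inf_iff.1 h5
      obtain ⟨h8, h9⟩ := hl.inf_iff.1 h7
      rw [lam_iInf_fin hl] at h9
      refine ⟨p, h6, ini_prefix hl u.2.2.2 h8, fun j a ha haq => ?_⟩
      refine ini_prefix hl (prefix_of_ini hl haq (hu2 j) ?_) (h9 j)
      rw [u.2.1 j]
      exact ha.trans (Nat.le_add_left _ _)
    obtain ⟨p, hp1, hp2, hp3⟩ := key p2 s (fun l h5 => by
      obtain ⟨_, ⟨u, rfl⟩, h6⟩ := hg (Sum.inr (Sum.inl l)) h5
      exact ⟨u, h6⟩) hlTs
    obtain ⟨q, hq1, hq2, hq3⟩ := key q2 t (fun l h5 => by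
      obtain ⟨_, ⟨u, rfl⟩, h6⟩ := hg (Sum.inr (Sum.inr (Sum.inl l))) h5
      exact ⟨u, h6⟩) hlTt
    refine ⟨p, q, fun h0 => hl.bot (h0 ▸ hl.inf (hl.mono (hb21.trans hb1b) hl2)
      (hl.inf (hl.inf hp1 hq1) ((lam_iInf_fin hl _).2 fun j => ?_)))⟩
    refine Fin.lastCases ?_ (fun j => ?_) j
    · exact hl.mono (le_iSup₂ (f := fun s t => U s t ⊓ (iniV s (Y (ξ p i)) ⊓ iniV t (Y (ξ q i)))) s t)
        (hl.inf hlU (hl.inf hp2 hq2))
    · exact hl.mono (le_iSup₂ (f := fun s t => U s t ⊓ (iniV s (Y (ξ p j)) ⊓ iniV t (Y (ξ q j))))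
        (st j).1 (st j).2) (hl.inf (hst1 j) (hl.inf (hp3 j _ (hl1 j) (hst2 j))
          (hq3 j _ (hl1' j) (hst3 j))))

end

end MAO
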