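import Pool.Agent.W_MP_3b51b4_h40.CHL3

/-!
# MP_3b51b4_gt : the CH lemma, the countable chain condition

The preorder: the points are the finite sets `p` of pairs `(ξ, n)` such that the points `Y ξ`, `(ξ, n) ∈ p`, of the
same colour `n` are pairwise connected.
-/

set_option autoImplicit false

universe u v

open Set BVM

namespace MAO

section defs
variable {W B : Type u} [LinearOrder W] [CompleteBooleanAlgebra B]

open Classical in
/-- the truth value of: `p` is a point of the preorder -/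
noncomputable def vlV (U : List Bool → List Bool → B) (Y : W → ℕ → B) (p : Finset (W × ℕ)) : B :=
  ⨅ ab : (p ×ˢ p : Finset ((W × ℕ) × (W × ℕ))),
    if ab.1.1.2 = ab.1.2.2 ∧ ab.1.1.1 ≠ ab.1.2.1 then opV U (Y ab.1.1.1) (Y ab.1.2.1) else ⊤

open Classical in
/-- the preorder -/
noncomputable def chR (c : B) (U : List Bool → List Bool → B) (Y : W → ℕ → B) (e : W → Finset (W × ℕ))
    (x y : W) : B :=
  cᶜ ⊔ ((vlV U Y (e y))ᶜ ⊔ if e y ⊆ e x then vlV U Y (e x) else ⊥)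

theorem lam_vlV {lam : B → Prop} (hl : IsUF lam) {U : List Bool → List Bool → B} {Y : W → ℕ → B}
    {p : Finset (W × ℕ)} : lam (vlV U Y p) ↔
      ∀ a ∈ p, ∀ b ∈ p, a.2 = b.2 → a.1 ≠ b.1 → lam (opV U (Y a.1) (Y b.1)) := by
  classical
  unfold vlV
  rw [lam_iInf_fin hl]
  constructor
  · intro h a ha b hb h1 h2
    have h3 := h ⟨(a, b), Finset.mem_product.2 ⟨ha, hb⟩⟩
    rwa [if_pos ⟨h1, h2⟩] at h3
  · rintro h ⟨⟨a, b⟩, hab⟩
    obtain ⟨ha, hb⟩ := Finset.mem_product.1 hab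
    by_cases h1 : a.2 = b.2 ∧ a.1 ≠ b.1
    · rw [if_pos h1]
      exact h a ha b hb h1.1 h1.2
    · rw [if_neg h1]
      exact hl.top

theorem lam_chR {lam : B → Prop} (hl : IsUF lam) {c : B} {U : List Bool → List Bool → B}
    {Y : W → ℕ → B} {e : W → Finset (W × ℕ)} {x y : W} : lam (chR c U Y e x y) ↔
      (lam c → lam (vlV U Y (e y)) → e y ⊆ e x ∧ lam (vlV U Y (e x))) := by
  classical
  unfold chR
  rw [hl.sup_iff, hl.sup_iff, hl.compl_iff, hl.compl_iff]
  by_cases h : e y ⊆ e x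
  · rw [if_pos h]
    constructor
    · rintro (h1 | h1 | h1) h2 h3
      · exact (h1 h2).elim
      · exact (h1 h3).elim
      · exact ⟨h, h1⟩
    · intro h1
      by_cases h2 : lam c
      · by_cases h3 : lam (vlV U Y (e y))
        · exact Or.inr (Or.inr (h1 h2 h3).2)
        · exact Or.inr (Or.inl h3)
      · exact Or.inl h2
  · rw [if_neg h]
    constructor
    · rintro (h1 | h1 | h1) h2 h3
      · exact (h1 h2).elim
      · exact (h1 h3).elim
      · exact (hl.bot h1).elim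
    · intro h1
      by_cases h2 : lam c
      · by_cases h3 : lam (vlV U Y (e y))
        · exact (h (h1 h2 h3).1).elim
        · exact Or.inr (Or.inl h3)
      · exact Or.inl h2

theorem preV_chR (c : B) (U : List Bool → List Bool → B) (Y : W → ℕ → B) (e : W → Finset (W × ℕ)) :
    PreV (chR c U Y e) := by
  constructor
  · intro x
    rw [eq_top_iff, le_iff_ultra]
    intro lam hl _
    rw [lam_chR hl]
    exact fun _ h => ⟨Finset.Subset.refl _, h⟩
  · intro x y z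
    rw [le_iff_ultra]
    intro lam hl hlam
    obtain ⟨h1, h2⟩ := hl.inf_iff.1 hlam
    rw [lam_chR hl] at h1 h2 ⊢
    intro h3 h4
    obtain ⟨h5, h6⟩ := h2 h3 h4
    obtain ⟨h7, h8⟩ := h1 h3 h6
    exact ⟨h5.trans h7, h8⟩

theorem opV_self {U : List Bool → List Bool → B} (hU : CodeV U) (x : ℕ → B) : opV U x x = ⊥ := by
  rw [← le_bot_iff]
  refine iSup₂_le fun s t => ?_
  rw [le_iff_ultra]
  intro lam hl hlam
  obtain ⟨h1, h2⟩ := hl.inf_iff.1 hlam
  obtain ⟨h3, h4⟩ := hl.inf_iff.1 h2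
  by_cases hst : s.length = t.length
  · have h5 : s = t := by
      rw [(iniV_ev hl).1 h3, (iniV_ev hl).1 h4, hst]
    rw [h5, hU.irr t] at h1
    exact h1
  · rw [hU.len s t hst] at h1
    exact h1

end defs

section unb
variable {W B : Type u} [LinearOrder W] [CompleteBooleanAlgebra B] {J : Type v}

theorem Unb.sub {ρ : J → W} {A : J → B} {Q : J → Prop} {c : B} (h : Unb ρ A c)
    (hQ : ∀ j, ¬ Q j → A j = ⊥) : Unb (fun j : {j // Q j} => ρ j.1) (fun j => A j.1) c := by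
  intro δ
  refine (h δ).trans (iSup_le fun j => ?_)
  by_cases hj : Q j.1
  · exact le_iSup (fun j : {j : {j // Q j} // δ ≤ ρ j.1} => A j.1.1) ⟨⟨j.1, hj⟩, j.2⟩
  · rw [hQ _ hj]
    exact bot_le

variable (reg : ∀ g : ℕ → W → B, (∀ n x y, x ≠ y → g n x ⊓ g n y = ⊥) → ∀ c : B, c ≠ ⊥ →
    ∃ (b : B) (z : W), b ≠ ⊥ ∧ b ≤ c ∧ ∀ n x, z ≤ x → b ⊓ g n x = ⊥)
include reg

/-- an unbounded set has two elements -/
theorem Unb.two [Nontrivial B] {A : W → B} {c : B} (h : Unb id A c) (hc : c ≠ ⊥) :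
    ∃ x y, x ≠ y ∧ c ⊓ (A x ⊓ A y) ≠ ⊥ := by
  obtain ⟨_, w, _⟩ := reg (fun _ _ => ⊥) (fun _ _ _ _ => inf_bot_eq _) ⊤ top_ne_bot
  obtain ⟨x, _, hx⟩ := h.exists hc w
  obtain ⟨w', hw'⟩ := gt_of_reg reg x
  obtain ⟨y, hy, hy'⟩ := (h.mono (c' := c ⊓ A x) inf_le_left fun _ => le_rfl).exists hx w'
  refine ⟨x, y, (hw'.trans_le hy).ne, ?_⟩
  rwa [← inf_assoc]

variable [WellFoundedLT W]

open Classical in
/-- the root of a Delta system -/
theorem exists_root (seg : ∀ x : W, (Iio x).Countable) {e : W → Finset (W × ℕ)} {A : W → B} {c : B}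
    (hA : Unb id A c) (hc : c ≠ ⊥) {n : ℕ} (hn : ∀ x, A x ≠ ⊥ → (e x).card ≤ n) :
    ∃ (r : Finset (W × ℕ)) (c' : B), c' ≠ ⊥ ∧ c' ≤ c ∧
      ∀ δ, Unb id (fun x => if r ⊆ e x ∧ ∀ a ∈ e x \ r, δ < a.1 then A x else ⊥) c' := by
  -- a maximal root
  obtain ⟨r, c', hc', hcc, hr, hmax⟩ : ∃ (r : Finset (W × ℕ)) (c' : B), c' ≠ ⊥ ∧ c' ≤ c ∧
      Unb id (fun x => if r ⊆ e x then A x else ⊥) c' ∧
      ∀ a, a ∉ r → ∀ c'', c'' ≠ ⊥ → c'' ≤ c' →
        ¬ Unb id (fun x => if insert a r ⊆ e x then A x else ⊥) c'' := by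
    by_contra hno
    push Not at hno
    have h1 : ∀ k : ℕ, ∃ (r : Finset (W × ℕ)) (c' : B), c' ≠ ⊥ ∧ c' ≤ c ∧
        Unb id (fun x => if r ⊆ e x then A x else ⊥) c' ∧ k ≤ r.card := by
      intro k
      induction k with
      | zero =>
        refine ⟨∅, c, hc, le_rfl, ?_, Nat.zero_le _⟩
        simpa using hA
      | succ k ih =>
        obtain ⟨r, c', hc', hcc, hr, hk⟩ := ih
        obtain ⟨a, ha, c'', hc'', hcc', h2⟩ := hno r c' hc' hcc hr
        refine ⟨insert a r, c'', hc'', hcc'.trans hcc, h2, ?_⟩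
        rw [Finset.card_insert_of_notMem ha]
        exact Nat.succ_le_succ hk
    obtain ⟨r, c', hc', _, hr, hk⟩ := h1 (n + 1)
    have : Nontrivial B := ⟨⟨_, _, hc⟩⟩
    obtain ⟨_, w, _⟩ := reg (fun _ _ => ⊥) (fun _ _ _ _ => inf_bot_eq _) ⊤ top_ne_bot
    obtain ⟨x, _, hx⟩ := hr.exists hc' w
    by_cases hrx : r ⊆ e x
    · rw [if_pos hrx] at hx
      have h2 := hn x fun h => hx (by rw [h, inf_bot_eq])
      have h3 := Finset.card_le_card hrx
      omega
    · rw [if_neg hrx, inf_bot_eq] at hx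
      exact hx rfl
  refine ⟨r, c', hc', hcc, fun δ => Unb.of_dense fun b hb hbc ε => ?_⟩
  have hcount : Countable {a : W × ℕ // a.1 ≤ δ ∧ a ∉ r} := by
    have h2 : (Iic δ).Countable := by
      have h3 : Iic δ = insert δ (Iio δ) := by
        ext y
        simp [le_iff_eq_or_lt]
      rw [h3]
      exact (seg δ).insert δ
    have h3 : ({a : W × ℕ | a.1 ≤ δ ∧ a ∉ r}).Countable := by
      refine (h2.prod (countable_univ (α := ℕ))).mono fun a ha => ?_
      exact ⟨ha.1, mem_univ _⟩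
    exact h3.to_subtype
  obtain ⟨b', w, hb', hbb, hw⟩ := bdd_iUnion reg (ρ := id)
    (fun (a : {a : W × ℕ // a.1 ≤ δ ∧ a ∉ r}) x => if insert a.1 r ⊆ e x then A x else ⊥) hb
    fun a c'' h2 h3 => hmax a.1 a.2.2 c'' h2 (h3.trans hbc)
  obtain ⟨x, hx, hx'⟩ := (hr.mono (c' := b') (hbb.trans hbc) fun _ => le_rfl).exists hb' (max ε w)
  refine ⟨x, (le_max_left _ _).trans hx, ?_⟩
  have hrx : r ⊆ e x := by
    by_contra h
    rw [if_neg h, inf_bot_eq] at hx'
    exact hx' rfl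
  rw [if_pos hrx] at hx'
  rw [if_pos]
  · intro h
    apply hx'
    rw [← le_bot_iff, ← h]
    exact inf_le_inf_right _ hbb
  · refine ⟨hrx, fun a ha => ?_⟩
    by_contra hle
    rw [not_lt] at hle
    obtain ⟨ha1, ha2⟩ := Finset.mem_sdiff.1 ha
    have h2 := hw ⟨a, hle, ha2⟩ x ((le_max_right _ _).trans hx)
    rw [if_pos (Finset.insert_subset ha1 hrx)] at h2
    exact hx' h2

end unb

end MAO
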