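import Pool.Agent.W_MP_3b51b4_h40.CHL4

/-!
# MP_3b51b4_gt : the CH lemma, the countable chain condition, conclusion
-/

set_option autoImplicit false

universe u v

open Set BVM

namespace MAO

section enum
variable {W : Type u} [LinearOrder W]

/-- the `i`-th element of a finite set -/
def nthF (S : Finset W) (x : W) (i : ℕ) : W :=
  if h : i < S.card then S.orderEmbOfFin rfl ⟨i, h⟩ else x

theorem nthF_mem {S : Finset W} {x : W} {i : ℕ} (h : i < S.card) : nthF S x i ∈ S := by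
  unfold nthF
  rw [dif_pos h]
  exact Finset.orderEmbOfFin_mem _ _ _

theorem nthF_lt {S : Finset W} {x : W} {i j : ℕ} (h : i < j) (hj : j < S.card) :
    nthF S x i < nthF S x j := by
  unfold nthF
  rw [dif_pos hj, dif_pos (h.trans hj)]
  exact (S.orderEmbOfFin rfl).strictMono h

theorem exists_nthF {S : Finset W} (x : W) {a : W} (h : a ∈ S) : ∃ i < S.card, nthF S x i = a := by
  have h1 : a ∈ Set.range (S.orderEmbOfFin rfl) := by
    rw [Finset.range_orderEmbOfFin]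
    exact h
  obtain ⟨i, hi⟩ := h1
  refine ⟨i.1, i.2, ?_⟩
  unfold nthF
  rw [dif_pos i.2]
  exact hi

end enum

section
variable {W B : Type u} [LinearOrder W] [CompleteBooleanAlgebra B]

/-- the strings of a finite family of reals -/
theorem exists_strings {m : ℕ} {U : List Bool → List Bool → B} (hU : CodeV U) (y : Fin m → ℕ → B)
    (D : Fin m → Fin m → Prop) [∀ i j, Decidable (D i j)] {c : B} (hc : ∀ i j, D i j → c ≤ opV U (y i) (y j)) :
    c ≤ ⨆ w : Fin m → List Bool, ⨅ i, (iniV (w i) (y i) ⊓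
      ⨅ j, if D i j then U (w i) (w j) else ⊤) := by
  by_contra hcx
  have h1 : c ⊓ (⨆ w : Fin m → List Bool, ⨅ i, (iniV (w i) (y i) ⊓
      ⨅ j, if D i j then U (w i) (w j) else ⊤))ᶜ ≠ ⊥ := by
    intro h
    apply hcx
    rw [← disjoint_compl_right_iff, disjoint_iff]
    exact h
  obtain ⟨lam, hl, hlam, hg⟩ := exists_gen h1
    (fun ij : Fin m × Fin m => range fun st : List Bool × List Bool =>
      U st.1 st.2 ⊓ (iniV st.1 (y ij.1) ⊓ iniV st.2 (y ij.2)))
  obtain ⟨h2, h3⟩ := hl.inf_iff.1 hlam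
  rw [hl.compl_iff] at h3
  apply h3
  have h4 : ∀ ij : Fin m × Fin m, ∃ st : List Bool × List Bool, D ij.1 ij.2 →
      lam (U st.1 st.2) ∧ lam (iniV st.1 (y ij.1)) ∧ lam (iniV st.2 (y ij.2)) := by
    intro ij
    by_cases hD : D ij.1 ij.2
    · have h4 : lam (sSup (range fun st : List Bool × List Bool =>
          U st.1 st.2 ⊓ (iniV st.1 (y ij.1) ⊓ iniV st.2 (y ij.2)))) := by
        refine hl.mono ?_ h2
        refine (hc _ _ hD).trans (le_of_eq ?_)
        rw [← iSup, iSup_prod]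
        rfl
      obtain ⟨_, ⟨st, rfl⟩, h5⟩ := hg ij h4
      obtain ⟨h6, h7⟩ := hl.inf_iff.1 h5
      exact ⟨st, fun _ => ⟨h6, hl.inf_iff.1 h7⟩⟩
    · exact ⟨([], []), fun h => (hD h).elim⟩
  choose st hst using h4
  let l : ℕ := Finset.univ.sup fun ij : Fin m × Fin m => max (st ij).1.length (st ij).2.length
  have hl1 : ∀ ij, (st ij).1.length ≤ l := fun ij =>
    (le_max_left _ _).trans (Finset.le_sup (f := fun ij : Fin m × Fin m => max (st ij).1.length
      (st ij).2.length) (Finset.mem_univ ij))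
  have hl2 : ∀ ij, (st ij).2.length ≤ l := fun ij =>
    (le_max_right _ _).trans (Finset.le_sup (f := fun ij : Fin m × Fin m => max (st ij).1.length
      (st ij).2.length) (Finset.mem_univ ij))
  refine hl.mono (le_iSup (fun w : Fin m → List Bool => ⨅ i, (iniV (w i) (y i) ⊓
      ⨅ j, if D i j then U (w i) (w j) else ⊤)) fun i => ev lam (y i) l) ?_
  refine (lam_iInf_fin hl _).2 fun i => hl.inf (ini_self hl _ _) ((lam_iInf_fin hl _).2 fun j => ?_)
  by_cases hD : D i j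
  · rw [if_pos hD]
    obtain ⟨h5, h6, h7⟩ := hst (i, j) hD
    have h8 : (st (i, j)).1.length = (st (i, j)).2.length := by
      by_contra hne
      rw [hU.len _ _ hne] at h5
      exact hl.bot h5
    refine hl.mono (hU.mono _ _ _ _ h8 (by rw [ev_length, ev_length]) ?_ ?_) h5
    · exact prefix_of_ini hl h6 (ini_self hl _ _) (by rw [ev_length]; exact hl1 (i, j))
    · exact prefix_of_ini hl h7 (ini_self hl _ _) (by rw [ev_length]; exact hl2 (i, j))
  · rw [if_neg hD]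
    exact hl.top

theorem cccV_chR [WellFoundedLT W] [Nontrivial B] (h : ChB W B) {X : (ℕ → B) → B}
    {U : List Bool → List Bool → B} (hU : CodeV U) {z : W → Lam → B}
    (hz : ∀ F : Lam → B, (⨆ ξ, eqL F (z ξ)) = ⊤) {c : B} {Y : W → ℕ → B} (hY : Avd X U z c Y)
    (e : W ≃ Finset (W × ℕ)) : CccV (chR c U Y e) := by
  classical
  intro A c0 hc0 hA
  have hA0 : Unb id A c0 := fun δ => hA δ
  -- below the complement of `c`
  by_cases hcc : c0 ⊓ cᶜ = ⊥
  swap
  · obtain ⟨x, y, hxy, h1⟩ := (hA0.mono (c' := c0 ⊓ cᶜ) inf_le_left fun _ => le_rfl).two h.reg hcc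
    obtain ⟨lam, hl, hlam⟩ := exists_isUF h1
    obtain ⟨h2, h3⟩ := hl.inf_iff.1 hlam
    obtain ⟨h4, h5⟩ := hl.inf_iff.1 h2
    rw [hl.compl_iff] at h5
    refine ⟨x, y, x, hxy, fun h0 => hl.bot (h0 ▸ hl.inf h4 (hl.inf h3 (hl.inf ?_ ?_)))⟩
    · exact (lam_chR hl).2 fun h6 => (h5 h6).elim
    · exact (lam_chR hl).2 fun h6 => (h5 h6).elim
  have hc0c : c0 ≤ c := by
    rw [← disjoint_compl_right_iff, disjoint_iff]
    exact hcc
  -- the elements are points of the preorder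
  obtain ⟨i, c1, hc1, hc10, hA1⟩ := hA0.pigeon h.reg hc0
    (fun (i : Bool) x => if i = true then vlV U Y (e x) else (vlV U Y (e x))ᶜ) (by
      intro x
      calc c0 ⊓ A x ≤ ⊤ := le_top
        _ = vlV U Y (e x) ⊔ (vlV U Y (e x))ᶜ := sup_compl_eq_top.symm
        _ ≤ _ := by
          refine sup_le ?_ ?_
          · exact le_iSup_of_le true (by rw [if_pos rfl])
          · exact le_iSup_of_le false (by rw [if_neg (by simp)]))
  rcases i with _ | _
  · obtain ⟨x, y, hxy, h1⟩ := hA1.two h.reg hc1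
    obtain ⟨lam, hl, hlam⟩ := exists_isUF h1
    obtain ⟨h2, h3⟩ := hl.inf_iff.1 hlam
    obtain ⟨h4, h5⟩ := hl.inf_iff.1 h3
    obtain ⟨h6, h7⟩ := hl.inf_iff.1 h4
    obtain ⟨h8, h9⟩ := hl.inf_iff.1 h5
    rw [if_neg (by simp), hl.compl_iff] at h7 h9
    refine ⟨x, y, x, hxy, fun h0 => hl.bot (h0 ▸ hl.inf (hl.mono hc10 h2)
      (hl.inf (hl.inf h6 h8) (hl.inf ?_ ?_)))⟩
    · exact (lam_chR hl).2 fun _ h10 => (h7 h10).elim
    · exact (lam_chR hl).2 fun _ h10 => (h9 h10).elim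
  -- the number of elements
  obtain ⟨n, c2, hc2, hc21, hA2⟩ := hA1.pigeon h.reg hc1
    (fun (n : ℕ) x => if (e x).card = n then ⊤ else ⊥) (by
      intro x
      refine le_trans le_top (le_iSup_of_le (e x).card ?_)
      rw [if_pos rfl])
  obtain ⟨r, c3, hc3, hc32, hA3⟩ := exists_root h.reg h.seg (e := e) hA2 hc2 (n := n) (by
    intro x hx
    by_cases h1 : (e x).card = n
    · exact h1.le
    · rw [if_neg h1, inf_bot_eq] at hx
      exact (hx rfl).elim)
  have hAle : ∀ x, (A x ⊓ if true = true then vlV U Y (e x) else (vlV U Y (e x))ᶜ) ⊓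
      (if (e x).card = n then ⊤ else ⊥) ≤ A x ⊓ vlV U Y (e x) := fun x => by
    rw [if_pos rfl]
    exact inf_le_left
  -- the supports
  let S : W → Finset W := fun x => (e x \ r).image Prod.fst
  let ξ : W → ℕ → W := fun x => nthF (S x) x
  have hA4 : Unb (fun x => ξ x 0) (fun x => if r ⊆ e x ∧ 0 < (S x).card then A x ⊓ vlV U Y (e x)
      else ⊥) c3 := by
    intro δ
    obtain ⟨ε, hε⟩ := gt_of_reg h.reg (e.symm r)
    refine (hA3 δ ε).trans (iSup_le fun x => ?_)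
    by_cases h1 : r ⊆ e x.1 ∧ ∀ a ∈ e x.1 \ r, δ < a.1
    · beta_reduce
      rw [if_pos h1]
      have h2 : 0 < (S x.1).card := by
        rw [Finset.card_pos]
        refine Finset.Nonempty.image ?_ _
        rw [Finset.sdiff_nonempty]
        intro h3
        have h4 : e x.1 = r := Finset.Subset.antisymm h3 h1.1
        have h5 : x.1 = e.symm r := by rw [← h4, Equiv.symm_apply_apply]
        exact absurd (h5 ▸ (hε.trans_le x.2)) (lt_irrefl _)
      have h3 : δ ≤ ξ x.1 0 := by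
        obtain ⟨a, ha, hax⟩ := Finset.mem_image.1 (nthF_mem (x := x.1) h2)
        have h4 := h1.2 a ha
        rw [hax] at h4
        exact h4.le
      refine (hAle x.1).trans (le_iSup_of_le (⟨x.1, h3⟩ : {x // δ ≤ ξ x 0}) ?_)
      rw [if_pos ⟨h1.1, h2⟩]
    · beta_reduce
      rw [if_neg h1]
      exact bot_le
  -- the shape
  let Sh : ℕ × Finset (ℕ × ℕ) → W → Prop := fun ms x => (S x).card = ms.1 ∧
    ∀ i n, i < ms.1 → ((ξ x i, n) ∈ e x \ r ↔ (i, n) ∈ ms.2)
  obtain ⟨⟨m, sh⟩, c4, hc4, hc43, hA5⟩ := hA4.pigeon h.reg hc3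
    (fun (ms : ℕ × Finset (ℕ × ℕ)) x => if Sh ms x then ⊤ else ⊥) (by
      intro x
      have h1 : ∃ ms, Sh ms x := by
        refine ⟨((S x).card, ((Finset.range (S x).card) ×ˢ ((e x).image Prod.snd)).filter
          fun a => (ξ x a.1, a.2) ∈ e x \ r), rfl, fun i n hi => ?_⟩
        rw [Finset.mem_filter, Finset.mem_product, Finset.mem_range]
        constructor
        · intro h1
          exact ⟨⟨hi, Finset.mem_image.2 ⟨_, (Finset.mem_sdiff.1 h1).1, rfl⟩⟩, h1⟩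
        · exact fun h1 => h1.2
      obtain ⟨ms, hms⟩ := h1
      refine le_trans le_top (le_iSup_of_le ms ?_)
      rw [if_pos hms])
  let Q : W → Prop := fun x => (r ⊆ e x ∧ 0 < (S x).card) ∧ Sh (m, sh) x
  have hA6 := hA5.sub (Q := Q) (by
    intro x hx
    by_cases h1 : r ⊆ e x ∧ 0 < (S x).card
    · by_cases h2 : Sh (m, sh) x
      · exact (hx ⟨h1, h2⟩).elim
      · rw [if_neg h2, inf_bot_eq]
    · rw [if_neg h1, bot_inf_eq])
  have hA7 : Unb (fun p : {x // Q x} => ξ p.1 0) (fun p => A p.1 ⊓ vlV U Y (e p.1)) c4 :=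
    hA6.mono le_rfl fun p => by
      rw [if_pos p.2.1]
      exact inf_le_left
  -- the strings
  let Dd : Fin m → Fin m → Prop := fun i j => i ≠ j ∧ ∃ n, (i.1, n) ∈ sh ∧ (j.1, n) ∈ sh
  obtain ⟨w, c5, hc5, hc54, hA8⟩ := hA7.pigeon h.reg hc4
    (fun (w : Fin m → List Bool) (p : {x // Q x}) => ⨅ i : Fin m, (iniV (w i) (Y (ξ p.1 i)) ⊓
      ⨅ j, if Dd i j then U (w i) (w j) else ⊤)) (by
      intro p
      refine exists_strings hU (fun i => Y (ξ p.1 i)) Dd ?_
      rintro i j ⟨hij, n', hi, hj⟩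
      have h1 := p.2.2.2 i n' i.2
      have h2 := p.2.2.2 j n' j.2
      have h3 := (Finset.mem_sdiff.1 (h1.2 hi)).1
      have h4 := (Finset.mem_sdiff.1 (h2.2 hj)).1
      rw [le_iff_ultra]
      intro lam hl hlam
      have h5 := (hl.inf_iff.1 (hl.inf_iff.1 hlam).2).2
      refine (lam_vlV hl).1 h5 _ h3 _ h4 rfl ?_
      have hm : (S p.1).card = m := p.2.2.1
      rcases lt_or_gt_of_ne (fun h6 => hij (Fin.ext h6) : i.1 ≠ j.1) with h6 | h6
      · exact (nthF_lt h6 (j.2.trans_eq hm.symm)).ne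
      · exact (nthF_lt h6 (i.2.trans_eq hm.symm)).ne')
  -- the induction
  have hρ1 : ∀ (p : {x // Q x}) (i : ℕ), i < m → ξ p.1 0 ≤ ξ p.1 i := by
    intro p i hi
    have hm : (S p.1).card = m := p.2.2.1
    rcases Nat.eq_zero_or_pos i with rfl | h1
    · exact le_rfl
    · exact (nthF_lt h1 (hm ▸ hi)).le
  have hξ1 : ∀ (p : {x // Q x}) (i j : ℕ), i < j → j < m → ξ p.1 i < ξ p.1 j := by
    intro p i j hij hj
    have hm : (S p.1).card = m := p.2.2.1
    exact nthF_lt hij (hm ▸ hj)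
  obtain ⟨p, q, hpq⟩ := main_ind h hU hz hY (J := {x // Q x}) (ρ := fun p : {x // Q x} => ξ p.1 0)
    (ξ := fun p : {x // Q x} => ξ p.1) (m := m) hρ1 hξ1 m le_rfl _ c5 hc5
      (hc54.trans (hc43.trans (hc32.trans (hc21.trans (hc10.trans hc0c))))) hA8
  obtain ⟨lam, hl, hlam⟩ := exists_isUF hpq
  obtain ⟨h1, h2⟩ := hl.inf_iff.1 hlam
  obtain ⟨h3, h4⟩ := hl.inf_iff.1 h2
  obtain ⟨h5, h6⟩ := hl.inf_iff.1 h3
  obtain ⟨h7, h8⟩ := hl.inf_iff.1 h5
  obtain ⟨h9, h10⟩ := hl.inf_iff.1 h6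
  obtain ⟨h11, h12⟩ := hl.inf_iff.1 h7
  obtain ⟨h13, h14⟩ := hl.inf_iff.1 h9
  rw [lam_iInf_fin hl] at h4 h8 h10
  have hm : (S p.1).card = m := p.2.2.1
  have hm' : (S q.1).card = m := q.2.2.1
  have hne : p.1 ≠ q.1 := by
    intro h15
    have h16 : 0 < m := hm ▸ p.2.1.2
    have h17 := h4 ⟨0, h16⟩
    have h18 : ξ p.1 = ξ q.1 := by rw [h15]
    rw [h18, opV_self hU] at h17
    exact hl.bot h17
  -- cross pairs
  have hcross : ∀ a ∈ e p.1 \ r, ∀ b ∈ e q.1 \ r, a.2 = b.2 → lam (opV U (Y a.1) (Y b.1)) := by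
    rintro ⟨a, k⟩ ha ⟨b, k'⟩ hb hab
    dsimp only at hab
    subst hab
    obtain ⟨i, hi, hia⟩ := exists_nthF p.1 (S := S p.1) (Finset.mem_image.2 ⟨_, ha, rfl⟩)
    obtain ⟨j, hj, hjb⟩ := exists_nthF q.1 (S := S q.1) (Finset.mem_image.2 ⟨_, hb, rfl⟩)
    have hia' : ξ p.1 i = a := hia
    have hjb' : ξ q.1 j = b := hjb
    rw [hm] at hi
    rw [hm'] at hj
    have h15 : (i, k) ∈ sh := (p.2.2.2 i k hi).1 (by rw [hia']; exact ha)
    have h16 : (j, k) ∈ sh := (q.2.2.2 j k hj).1 (by rw [hjb']; exact hb)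
    change lam (opV U (Y a) (Y b))
    rw [← hia', ← hjb']
    by_cases hij : i = j
    · rw [← hij]
      exact h4 ⟨i, hi⟩
    · obtain ⟨h17, h18⟩ := hl.inf_iff.1 (h8 ⟨i, hi⟩)
      rw [lam_iInf_fin hl] at h18
      have h19 := h18 ⟨j, hj⟩
      rw [if_pos ⟨fun h20 => hij (congrArg Fin.val h20), k, h15, h16⟩] at h19
      exact hl.mono (le_iSup₂ (f := fun s t => U s t ⊓ (iniV s (Y (ξ p.1 i)) ⊓
        iniV t (Y (ξ q.1 j)))) (w ⟨i, hi⟩) (w ⟨j, hj⟩))
        (hl.inf h19 (hl.inf h17 (hl.inf_iff.1 (h10 ⟨j, hj⟩)).1))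
  have hsymm : ∀ x y, lam (opV U x y) → lam (opV U y x) := by
    intro x y h15
    refine hl.mono ?_ h15
    refine iSup₂_le fun s t => ?_
    refine le_trans ?_ (le_iSup₂ (f := fun s t => U s t ⊓ (iniV s y ⊓ iniV t x)) t s)
    rw [hU.symm s t, inf_comm (iniV s x)]
  have hval : lam (vlV U Y (e p.1 ∪ e q.1)) := by
    rw [lam_vlV hl]
    intro a ha b hb hab hne'
    by_cases har : a ∈ r
    · have ha1 := p.2.1.1 har
      have ha2 := q.2.1.1 har
      rcases Finset.mem_union.1 hb with h15 | h15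
      · exact (lam_vlV hl).1 h12 a ha1 b h15 hab hne'
      · exact (lam_vlV hl).1 h14 a ha2 b h15 hab hne'
    by_cases hbr : b ∈ r
    · have hb1 := p.2.1.1 hbr
      have hb2 := q.2.1.1 hbr
      rcases Finset.mem_union.1 ha with h15 | h15
      · exact (lam_vlV hl).1 h12 a h15 b hb1 hab hne'
      · exact (lam_vlV hl).1 h14 a h15 b hb2 hab hne'
    rcases Finset.mem_union.1 ha with h15 | h15
    · rcases Finset.mem_union.1 hb with h16 | h16
      · exact (lam_vlV hl).1 h12 a h15 b h16 hab hne'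
      · exact hcross a (Finset.mem_sdiff.2 ⟨h15, har⟩) b (Finset.mem_sdiff.2 ⟨h16, hbr⟩) hab
    · rcases Finset.mem_union.1 hb with h16 | h16
      · exact hsymm _ _ (hcross b (Finset.mem_sdiff.2 ⟨h16, hbr⟩) a (Finset.mem_sdiff.2 ⟨h15, har⟩)
          hab.symm)
      · exact (lam_vlV hl).1 h14 a h15 b h16 hab hne'
  have hcz : e (e.symm (e p.1 ∪ e q.1)) = e p.1 ∪ e q.1 := Equiv.apply_symm_apply _ _
  refine ⟨p.1, q.1, e.symm (e p.1 ∪ e q.1), hne, fun h0 => hl.bot (h0 ▸ hl.inf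
    (hl.mono (hc54.trans (hc43.trans (hc32.trans (hc21.trans hc10)))) h1)
      (hl.inf (hl.inf h11 h13) (hl.inf ?_ ?_)))⟩
  · refine (lam_chR hl).2 fun _ _ => ?_
    rw [hcz]
    exact ⟨Finset.subset_union_left, hval⟩
  · refine (lam_chR hl).2 fun _ _ => ?_
    rw [hcz]
    exact ⟨Finset.subset_union_right, hval⟩

end

end MAO
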