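import Pool.Agent.W_MP_3b51b4_h40.ToolsMO

/-!
# MP_3b51b4_gt : Martin's axiom in the model
-/

set_option autoImplicit false

universe u

open Cardinal Set HESR IM.BSet DCM
open IM (BSet)

namespace MAO
open HESR DCM

/-- the situation of Martin's axiom -/
def HypA {T : Type*} (E : T → T → Prop) (Y R F f w : T) : Prop :=
  IsPos E Y R ∧ CCC E Y R ∧ IsFun E f w ∧ (∀ D, E D F → ∃ x, App E f x D) ∧
    ∀ D, E D F → IsDns E Y R D

theorem HypA.fo {k : ℕ} (a b c d e : Fin k) :
    FO.{u} (fun _ E v => HypA E (v a) (v b) (v c) (v d) (v e)) := by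
  unfold HypA; (repeat' (first | exact IsPos.fo _ _ | exact CCC.fo _ _ | exact IsDns.fo _ _ _ | exact IsFun.fo _ _ | exact App.fo _ _ _ | exact FO.mem _ _ | apply FO.and | apply FO.imp | apply FO.ex | apply FO.all))

/-- there is a filter meeting all elements of `F` -/
def HasG {T : Type*} (E : T → T → Prop) (Y R F : T) : Prop :=
  ∃ G, IsFlt E Y R G ∧ ∀ D, E D F → ∃ x, E x G ∧ E x D

theorem HasG.fo {k : ℕ} (a b c : Fin k) : FO.{u} (fun _ E v => HasG E (v a) (v b) (v c)) := by
  unfold HasG; (repeat' (first | exact IsFlt.fo _ _ _ | exact FO.mem _ _ | apply FO.and | apply FO.imp | apply FO.ex | apply FO.all))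

end MAO

namespace MAOM

open BVM MAO

/-! ### Terms -/

/-- the symbols of the closure: a constant, a binary function, unary functions -/
inductive Op (W : Type u) : Type u
  | base : Op W
  | mul : Op W
  | dns (v : W) : Op W

/-- the arities -/
def Op.ar {W : Type u} : Op W → Type u
  | .base => PEmpty
  | .mul => ULift Bool
  | .dns _ => PUnit

/-- the number of terms -/
theorem exists_terms (W : Type u) [Infinite W] :
    ∃ e : W → WType (Op.ar (W := W)), Function.Surjective e := by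
  have h0 : ∀ a : Op W, Finite (Op.ar a) := fun a => by
    cases a
    · exact (inferInstance : Finite PEmpty.{u + 1})
    · exact (inferInstance : Finite (ULift.{u} Bool))
    · exact (inferInstance : Finite PUnit.{u + 1})
  have h1 : Cardinal.mk (WType (Op.ar (W := W))) ≤ max (Cardinal.mk (Op W)) ℵ₀ :=
    WType.cardinalMk_le_max_aleph0_of_finite
  have h2 : Cardinal.mk (Op W) ≤ Cardinal.mk (Option (Option W)) := by
    refine Cardinal.mk_le_of_injective (f := fun a => match a with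
      | .base => none
      | .mul => some none
      | .dns v => some (some v)) ?_
    intro a b hab
    cases a <;> cases b <;> simp_all
  have h3 : Cardinal.mk (Option (Option W)) = Cardinal.mk W := by
    rw [Cardinal.mk_option, Cardinal.mk_option, Cardinal.add_one_eq (Cardinal.aleph0_le_mk W),
      Cardinal.add_one_eq (Cardinal.aleph0_le_mk W)]
  have h4 : Cardinal.mk (WType (Op.ar (W := W))) ≤ Cardinal.mk W :=
    h1.trans (max_le (h2.trans h3.le) (Cardinal.aleph0_le_mk W))
  obtain ⟨f⟩ := h4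
  have : Nonempty (WType (Op.ar (W := W))) := ⟨WType.mk Op.base PEmpty.elim⟩
  exact ⟨Function.invFun f, Function.invFun_surjective f.injective⟩

section
variable {W D : Type u} [LinearOrder W] [WellFoundedLT W] [CompleteBooleanAlgebra D]

omit [LinearOrder W] [WellFoundedLT W] [CompleteBooleanAlgebra D] in
/-- the closure of a name under functions -/
theorem exists_closure [Infinite W] (p0 : BSet D) (mm : BSet D → BSet D → BSet D)
    (dd : W → BSet D → BSet D) : ∃ t : W → BSet D, (∃ x, t x = p0) ∧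
      (∀ x y, ∃ z, t z = mm (t x) (t y)) ∧ (∀ v x, ∃ z, t z = dd v (t x)) ∧
      ∀ Q : BSet D → Prop, Q p0 → (∀ x y, Q x → Q y → Q (mm x y)) → (∀ v x, Q x → Q (dd v x)) →
        ∀ x, Q (t x) := by
  obtain ⟨e, he⟩ := exists_terms W
  let st : (Σ a : Op W, Op.ar a → BSet D) → BSet D := fun s => match s with
    | ⟨.base, _⟩ => p0
    | ⟨.mul, g⟩ => mm (g ⟨true⟩) (g ⟨false⟩)
    | ⟨.dns v, g⟩ => dd v (g ⟨⟩)
  let tn : WType (Op.ar (W := W)) → BSet D := WType.elim (BSet D) st
  refine ⟨fun x => tn (e x), ?_, ?_, ?_, ?_⟩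
  · obtain ⟨x, hx⟩ := he (WType.mk Op.base PEmpty.elim)
    refine ⟨x, ?_⟩
    change tn (e x) = p0
    rw [hx]
    rfl
  · intro x y
    obtain ⟨z, hz⟩ := he (WType.mk Op.mul fun b => if b.down = true then e x else e y)
    refine ⟨z, ?_⟩
    change tn (e z) = _
    rw [hz]
    rfl
  · intro v x
    obtain ⟨z, hz⟩ := he (WType.mk (Op.dns v) fun _ => e x)
    refine ⟨z, ?_⟩
    change tn (e z) = _
    rw [hz]
    rfl
  · intro Q h0 hm hd x
    have key : ∀ s : WType (Op.ar (W := W)), Q (tn s) := by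
      intro s
      induction s with
      | mk a g ih =>
        cases a with
        | base => exact h0
        | mul => exact hm _ _ (ih ⟨true⟩) (ih ⟨false⟩)
        | dns v => exact hd v _ (ih ⟨⟩)
    exact key (e x)

/-! ### The preorder on `W` -/

/-- the closed family of names -/
structure Fam (Y R F f : BSet D) (a : D) (t : W → BSet D) : Prop where
  mem : ∀ (x : W) (lam : D → Prop) (hl : IsUF lam), lam a → E hl (val hl (t x)) (val hl Y)
  mul : ∀ x y : W, ∃ z : W, ∀ (lam : D → Prop) (hl : IsUF lam), lam a →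
    Cmp (E hl) (val hl Y) (val hl R) (val hl (t x)) (val hl (t y)) →
      App (E hl) (val hl R) (val hl (t z)) (val hl (t x)) ∧
        App (E hl) (val hl R) (val hl (t z)) (val hl (t y))
  dns : ∀ v x : W, ∃ z : W, ∀ (lam : D → Prop) (hl : IsUF lam), lam a →
    App (E hl) (val hl R) (val hl (t z)) (val hl (t x)) ∧
      ∀ d, App (E hl) (val hl f) (val hl (chk v)) d → E hl d (val hl F) → E hl (val hl (t z)) d

theorem exists_fam [Infinite W] {Y R F f : BSet D} {a : D}
    (ha : ∀ (lam : D → Prop) (hl : IsUF lam), lam a →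
      HypA (E hl) (val hl Y) (val hl R) (val hl F) (val hl f) (val hl (chkT W))) :
    ∃ t : W → BSet D, Fam Y R F f a t := by
  have hT0 : TD1 (D := D) fun lam hl z => E hl z (val hl Y) := TD.mem (Tm.var 0) (Tm.const _)
  obtain ⟨p0, hp0⟩ := TD.exists_name hT0
  have hm : ∀ x y : BSet D, ∃ z : BSet D, ∀ (lam : D → Prop) (hl : IsUF lam), lam a →
      E hl (val hl x) (val hl Y) → E hl (val hl y) (val hl Y) → E hl (val hl z) (val hl Y) ∧
        (Cmp (E hl) (val hl Y) (val hl R) (val hl x) (val hl y) →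
          App (E hl) (val hl R) (val hl z) (val hl x) ∧
            App (E hl) (val hl R) (val hl z) (val hl y)) := by
    intro x y
    have hT : TD1 (D := D) fun lam hl z => E hl z (val hl Y) ∧
        (Cmp (E hl) (val hl Y) (val hl R) (val hl x) (val hl y) →
          App (E hl) (val hl R) z (val hl x) ∧ App (E hl) (val hl R) z (val hl y)) := by
      refine TD.and (TD.mem (Tm.var 0) (Tm.const _)) (TD.imp ?_ ?_)
      · exact TD.fo4 (R := fun _ E a b c d => Cmp E a b c d) (Cmp.fo 0 1 2 3) (Tm.const _)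
          (Tm.const _) (Tm.const _) (Tm.const _)
      · exact TD.and (TD.app (Tm.const _) (Tm.var 0) (Tm.const _))
          (TD.app (Tm.const _) (Tm.var 0) (Tm.const _))
    obtain ⟨z, hz⟩ := TD.exists_name hT
    refine ⟨z, fun lam hl hlam hx hy => ?_⟩
    by_cases hc : Cmp (E hl) (val hl Y) (val hl R) (val hl x) (val hl y)
    · obtain ⟨s, hs1, hs2, hs3⟩ := hc
      exact hz lam hl s ⟨hs1, fun _ => ⟨hs2, hs3⟩⟩
    · exact hz lam hl (val hl x) ⟨hx, fun h => (hc h).elim⟩
  have hd : ∀ (v : W) (x : BSet D), ∃ z : BSet D, ∀ (lam : D → Prop) (hl : IsUF lam), lam a →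
      E hl (val hl x) (val hl Y) → E hl (val hl z) (val hl Y) ∧
        App (E hl) (val hl R) (val hl z) (val hl x) ∧
        ∀ d, App (E hl) (val hl f) (val hl (chk v)) d → E hl d (val hl F) → E hl (val hl z) d := by
    intro v x
    have hT : TD1 (D := D) fun lam hl z => E hl z (val hl Y) ∧
        App (E hl) (val hl R) z (val hl x) ∧
        ∀ d, App (E hl) (val hl f) (val hl (chk v)) d → E hl d (val hl F) → E hl z d := by
      refine TD.and (TD.mem (Tm.var 0) (Tm.const _))
        (TD.and (TD.app (Tm.const _) (Tm.var 0) (Tm.const _)) ?_)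
      exact TD.all (P := fun lam hl d w => App (E hl) (val hl f) (val hl (chk v)) d →
        E hl d (val hl F) → E hl (w 0) d) (TD.imp (TD.app (Tm.const _) (Tm.const _) (Tm.var 0))
          (TD.imp (TD.mem (Tm.var 0) (Tm.const _)) (TD.mem (Tm.var 1) (Tm.var 0))))
    obtain ⟨z, hz⟩ := TD.exists_name hT
    refine ⟨z, fun lam hl hlam hx => ?_⟩
    obtain ⟨⟨hy0, hrefl, _⟩, _, hfun, _, hdns⟩ := ha lam hl hlam
    obtain ⟨d, hd⟩ := hfun.ex (E_chkT v)
    by_cases hc : E hl d (val hl F)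
    · obtain ⟨h1, h2⟩ := hdns d hc
      obtain ⟨s, hs1, hs2⟩ := h2 _ hx
      refine hz lam hl s ⟨h1 s hs1, hs2, fun d' hd' _ => ?_⟩
      rw [← hfun.val (zfc hl) hd hd']
      exact hs1
    · refine hz lam hl (val hl x) ⟨hx, hrefl _ hx, fun d' hd' hdF => ?_⟩
      rw [← hfun.val (zfc hl) hd hd'] at hdF
      exact (hc hdF).elim
  choose mm hmm using hm
  choose dd hdd using hd
  obtain ⟨t, _, ht1, ht2, ht3⟩ := exists_closure p0 mm dd
  have hmem : ∀ (x : W) (lam : D → Prop) (hl : IsUF lam), lam a →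
      E hl (val hl (t x)) (val hl Y) := by
    intro x
    refine ht3 (fun z => ∀ (lam : D → Prop) (hl : IsUF lam), lam a → E hl (val hl z) (val hl Y))
      ?_ ?_ ?_ x
    · intro lam hl hlam
      obtain ⟨z, hz⟩ := (ha lam hl hlam).1.1
      exact hp0 lam hl z hz
    · intro x y hx hy lam hl hlam
      exact (hmm x y lam hl hlam (hx lam hl hlam) (hy lam hl hlam)).1
    · intro v x hx lam hl hlam
      exact (hdd v x lam hl hlam (hx lam hl hlam)).1
  refine ⟨t, hmem, fun x y => ?_, fun v x => ?_⟩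
  · obtain ⟨z, hz⟩ := ht1 x y
    refine ⟨z, fun lam hl hlam => ?_⟩
    rw [hz]
    exact (hmm _ _ lam hl hlam (hmem x lam hl hlam) (hmem y lam hl hlam)).2
  · obtain ⟨z, hz⟩ := ht2 v x
    refine ⟨z, fun lam hl hlam => ?_⟩
    rw [hz]
    exact (hdd v _ lam hl hlam (hmem x lam hl hlam)).2

/-- the truth values of the preorder on `W` -/
noncomputable def rV (R : BSet D) (a : D) (t : W → BSet D) (x y : W) : D := aᶜ ⊔ apw R (t x) (t y)

theorem rV_iff {R : BSet D} {a : D} {t : W → BSet D} {x y : W} {lam : D → Prop} {hl : IsUF lam}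
    (ha : lam a) : lam (rV R a t x y) ↔ App (E hl) (val hl R) (val hl (t x)) (val hl (t y)) := by
  rw [apw_iff, rV, hl.sup_iff, hl.compl_iff]
  exact ⟨fun h => h.resolve_left fun h' => h' ha, Or.inr⟩

theorem rV_not {R : BSet D} {a : D} {t : W → BSet D} {x y : W} {lam : D → Prop} (hl : IsUF lam)
    (ha : ¬ lam a) : lam (rV R a t x y) := by
  rw [rV, hl.sup_iff, hl.compl_iff]
  exact Or.inl ha

theorem preV {Y R F f : BSet D} {a : D} {t : W → BSet D}
    (ha : ∀ (lam : D → Prop) (hl : IsUF lam), lam a →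
      HypA (E hl) (val hl Y) (val hl R) (val hl F) (val hl f) (val hl (chkT W)))
    (ht : Fam Y R F f a t) : PreV (rV R a t) where
  refl x := by
    rw [eq_top_iff, le_iff_ultra]
    intro lam hl _
    by_cases h : lam a
    · exact (rV_iff (hl := hl) h).2 ((ha lam hl h).1.2.1 _ (ht.mem x lam hl h))
    · exact rV_not hl h
  trans x y z := by
    rw [le_iff_ultra]
    intro lam hl hlam
    obtain ⟨h1, h2⟩ := hl.inf_iff.1 hlam
    by_cases h : lam a
    · rw [rV_iff (hl := hl) h] at h1 h2 ⊢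
      exact (ha lam hl h).1.2.2 _ _ _ (ht.mem x lam hl h) (ht.mem y lam hl h) (ht.mem z lam hl h)
        h1 h2
    · exact rV_not hl h

theorem cccV [Nontrivial D] (h : CoreMO W D) {Y R F f : BSet D} {a : D} {t : W → BSet D}
    (ha : ∀ (lam : D → Prop) (hl : IsUF lam), lam a →
      HypA (E hl) (val hl Y) (val hl R) (val hl F) (val hl f) (val hl (chkT W)))
    (ht : Fam Y R F f a t) : CccV (rV R a t) := by
  intro A c hc hA
  by_cases hca : c ⊓ aᶜ = ⊥
  · -- `c ≤ a`
    have hca' : c ≤ a := by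
      rw [← disjoint_compl_right_iff, disjoint_iff]
      exact hca
    by_contra hno
    push Not at hno
    obtain ⟨b, z, hb0, hbc, hb⟩ := bdd_of_ctb h (A := A) (t := t) hc (by
      intro x y hxy
      rw [eq_bot_iff_ultra]
      intro lam hl hlam
      obtain ⟨h1, h2⟩ := hl.inf_iff.1 hlam
      obtain ⟨h3, h4⟩ := hl.inf_iff.1 h2
      have hla := hl.mono hca' h1
      have h5 : App (E hl) (val hl R) (val hl (t x)) (val hl (t x)) :=
        (ha lam hl hla).1.2.1 _ (ht.mem x lam hl hla)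
      have h6 : App (E hl) (val hl R) (val hl (t x)) (val hl (t y)) := by
        rw [← val_eq.2 h4]
        exact h5
      exact hl.bot (hno x y x hxy ▸ hl.inf h1 (hl.inf h3 (hl.inf ((rV_iff (hl := hl) hla).2 h5)
        ((rV_iff (hl := hl) hla).2 h6))))) (by
      intro lam hl hlam
      have hla := hl.mono hca' hlam
      refine (ha lam hl hla).2.1 _ ?_ ?_
      · exact forall_mk (P := fun lam hl z => E hl z (val hl Y)) (TD.mem (Tm.var 0) (Tm.const _))
          (a := c) (fun i lam hl hlam _ => ht.mem i lam hl (hl.mono hca' hlam)) hlam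
      · have key : ∀ x, E hl x (val hl (mk W t A)) → ∀ y, E hl y (val hl (mk W t A)) → x ≠ y →
            ¬ Cmp (E hl) (val hl Y) (val hl R) x y := by
          have hC : ∀ {k : ℕ} {f g : ∀ (lam : D → Prop) (hl : IsUF lam), (Fin k → X hl) → X hl},
              Tm f → Tm g → TD fun lam hl v => Cmp (E hl) (val hl Y) (val hl R) (f lam hl v)
                (g lam hl v) := fun hf hg =>
            TD.fo4 (R := fun _ E a b c d => Cmp E a b c d) (Cmp.fo 0 1 2 3) (Tm.const _)
              (Tm.const _) hf hg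
          refine forall_mk (P := fun lam hl x => ∀ y, E hl y (val hl (mk W t A)) → x ≠ y →
            ¬ Cmp (E hl) (val hl Y) (val hl R) x y) ?_ (a := c) ?_ hlam
          · exact TD.all (P := fun lam hl y v => E hl y (val hl (mk W t A)) → v 0 ≠ y →
              ¬ Cmp (E hl) (val hl Y) (val hl R) (v 0) y)
              (TD.imp (TD.mem (Tm.var 0) (Tm.const _)) (TD.imp (TD.not (TD.eq (Tm.var 1) (Tm.var 0)))
                (TD.not (hC (Tm.var 1) (Tm.var 0)))))
          · intro x lam hl hlam hx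
            refine forall_mk (P := fun lam hl y => val hl (t x) ≠ y →
              ¬ Cmp (E hl) (val hl Y) (val hl R) (val hl (t x)) y) ?_ (a := c ⊓ A x) ?_
              (hl.inf hlam hx)
            · exact TD.imp (TD.not (TD.eq (Tm.const _) (Tm.var 0))) (TD.not (hC (Tm.const _) (Tm.var 0)))
            · intro y lam hl hlam hy hne hcmp
              obtain ⟨h1, h2⟩ := hl.inf_iff.1 hlam
              have hla := hl.mono hca' h1
              by_cases hxy : x = y
              · exact hne (by rw [hxy])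
              · obtain ⟨z, hz⟩ := ht.mul x y
                obtain ⟨h3, h4⟩ := hz lam hl hla hcmp
                exact hl.bot (hno x y z hxy ▸ hl.inf h1 (hl.inf (hl.inf h2 hy)
                  (hl.inf ((rV_iff (hl := hl) hla).2 h3) ((rV_iff (hl := hl) hla).2 h4))))
        exact fun x y hx hy => key x hx y hy)
    apply hb0
    rw [← le_bot_iff]
    calc b ≤ b ⊓ ⨆ x : Ici z, A x.1 := le_inf le_rfl (hbc.trans (hA z))
      _ = ⨆ x : Ici z, b ⊓ A x.1 := inf_iSup_eq _ _
      _ ≤ ⊥ := iSup_le fun x => (hb x.1 x.2).le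
  · -- below the complement of `a` everything is compatible
    obtain ⟨z0⟩ := nonempty_W h
    have h1 : ∃ x : Ici z0, c ⊓ aᶜ ⊓ A x.1 ≠ ⊥ := by
      by_contra hno
      push Not at hno
      apply hca
      rw [← le_bot_iff]
      calc c ⊓ aᶜ ≤ c ⊓ aᶜ ⊓ ⨆ x : Ici z0, A x.1 := le_inf le_rfl (inf_le_left.trans (hA z0))
        _ = ⨆ x : Ici z0, c ⊓ aᶜ ⊓ A x.1 := inf_iSup_eq _ _
        _ ≤ ⊥ := iSup_le fun x => (hno x).le
    obtain ⟨x, hx⟩ := h1
    obtain ⟨z, hz⟩ := exists_gt' h x.1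
    have h2 : ∃ y : Ici z, c ⊓ aᶜ ⊓ A x.1 ⊓ A y.1 ≠ ⊥ := by
      by_contra hno
      push Not at hno
      apply hx
      rw [← le_bot_iff]
      calc c ⊓ aᶜ ⊓ A x.1 ≤ c ⊓ aᶜ ⊓ A x.1 ⊓ ⨆ x : Ici z, A x.1 :=
            le_inf le_rfl (inf_le_left.trans (inf_le_left.trans (hA z)))
        _ = ⨆ y : Ici z, c ⊓ aᶜ ⊓ A x.1 ⊓ A y.1 := inf_iSup_eq _ _
        _ ≤ ⊥ := iSup_le fun x => (hno x).le
    obtain ⟨y, hy⟩ := h2
    refine ⟨x.1, y.1, x.1, fun hxy => absurd (hz.trans_le y.2) (by rw [hxy]; exact lt_irrefl _), ?_⟩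
    intro h0
    apply hy
    rw [← le_bot_iff, ← h0]
    refine le_inf (inf_le_left.trans (inf_le_left.trans inf_le_left)) (le_inf (le_inf
      (inf_le_left.trans inf_le_right) inf_le_right) (le_inf ?_ ?_))
    · exact inf_le_left.trans (inf_le_left.trans (inf_le_right.trans le_sup_left))
    · exact inf_le_left.trans (inf_le_left.trans (inf_le_right.trans le_sup_left))

theorem tdDe (f F : BSet D) (v : W) : TD1 (D := D) fun lam hl x =>
    ∀ d, App (E hl) (val hl f) (val hl (chk v)) d → E hl d (val hl F) → E hl x d :=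
  TD.all (P := fun lam hl d w => App (E hl) (val hl f) (val hl (chk v)) d → E hl d (val hl F) →
    E hl (w 0) d) (TD.imp (TD.app (Tm.const _) (Tm.const _) (Tm.var 0))
      (TD.imp (TD.mem (Tm.var 0) (Tm.const _)) (TD.mem (Tm.var 1) (Tm.var 0))))

/-- the truth values of the dense sets -/
noncomputable def dV (f F : BSet D) (a : D) (t : W → BSet D) (v x : W) : D :=
  aᶜ ⊔ TD.b1 (tdDe f F v) (t x)

theorem ma_aux [Nontrivial D] [Infinite W] (h : CoreMO W D) {Y R F f : BSet D} {a : D} (ha0 : a ≠ ⊥)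
    (ha : ∀ (lam : D → Prop) (hl : IsUF lam), lam a →
      HypA (E hl) (val hl Y) (val hl R) (val hl F) (val hl f) (val hl (chkT W))) :
    ∃ (lam : D → Prop) (hl : IsUF lam), lam a ∧ HasG (E hl) (val hl Y) (val hl R) (val hl F) := by
  obtain ⟨t, ht⟩ := exists_fam ha
  obtain ⟨b, G, hb0, hba, hup, hdir, hmeet⟩ := h.ma (rV R a t) (preV ha ht) (cccV h ha ht)
    (dV f F a t) (by
      intro v x
      rw [eq_top_iff, le_iff_ultra]
      intro lam hl _
      obtain ⟨z, hz⟩ := ht.dns v x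
      refine hl.mono (le_iSup (fun y => dV f F a t v y ⊓ rV R a t y x) z) ?_
      by_cases hla : lam a
      · obtain ⟨h1, h2⟩ := hz lam hl hla
        exact hl.inf (hl.sup_iff.2 (Or.inr ((TD.b1_iff (tdDe f F v)).1 h2)))
          ((rV_iff (hl := hl) hla).2 h1)
      · exact hl.inf (hl.sup_iff.2 (Or.inl (hl.compl_iff.2 hla))) (rV_not hl hla)) a ha0
  obtain ⟨lam, hl, hlam⟩ := exists_isUF hb0
  refine ⟨lam, hl, hl.mono hba hlam, ?_⟩
  have hZ := zfc hl
  set g : BSet D := mk W t G with hg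
  have hgY : Sub (E hl) (val hl g) (val hl Y) :=
    forall_mk (P := fun lam hl z => E hl z (val hl Y)) (TD.mem (Tm.var 0) (Tm.const _))
      (a := b) (fun i lam hl hlam _ => ht.mem i lam hl (hl.mono hba hlam)) hlam
  -- directed
  have hgd : ∀ x, E hl x (val hl g) → ∀ y, E hl y (val hl g) → ∃ z, E hl z (val hl g) ∧
      App (E hl) (val hl R) z x ∧ App (E hl) (val hl R) z y := by
    refine forall_mk (P := fun lam hl x => ∀ y, E hl y (val hl g) → ∃ z, E hl z (val hl g) ∧
      App (E hl) (val hl R) z x ∧ App (E hl) (val hl R) z y) ?_ (a := b) ?_ hlam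
    · refine TD.all (P := fun lam hl y v => E hl y (val hl g) → ∃ z, E hl z (val hl g) ∧
        App (E hl) (val hl R) z (v 0) ∧ App (E hl) (val hl R) z y)
        (TD.imp (TD.mem (Tm.var 0) (Tm.const _)) ?_)
      exact TD.ex (P := fun lam hl z v => E hl z (val hl g) ∧
        App (E hl) (val hl R) z (v 1) ∧ App (E hl) (val hl R) z (v 0))
        (TD.and (TD.mem (Tm.var 0) (Tm.const _)) (TD.and (TD.app (Tm.const _) (Tm.var 0) (Tm.var 2))
          (TD.app (Tm.const _) (Tm.var 0) (Tm.var 1))))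
    · intro x lam hl hlam hx
      refine forall_mk (P := fun lam hl y => ∃ z, E hl z (val hl g) ∧
        App (E hl) (val hl R) z (val hl (t x)) ∧ App (E hl) (val hl R) z y) ?_ (a := b ⊓ G x) ?_
        (hl.inf hlam hx)
      · exact TD.ex (P := fun lam hl z v => E hl z (val hl g) ∧
          App (E hl) (val hl R) z (val hl (t x)) ∧ App (E hl) (val hl R) z (v 0))
          (TD.and (TD.mem (Tm.var 0) (Tm.const _)) (TD.and
            (TD.app (Tm.const _) (Tm.var 0) (Tm.const _)) (TD.app (Tm.const _) (Tm.var 0) (Tm.var 1))))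
      · intro y lam hl hlam hy
        obtain ⟨h1, h2⟩ := hl.inf_iff.1 hlam
        have hT : TD1 (D := D) fun lam hl z => App (E hl) (val hl R) z (val hl (t x)) ∧
            App (E hl) (val hl R) z (val hl (t y)) :=
          TD.and (TD.app (Tm.const _) (Tm.var 0) (Tm.const _))
            (TD.app (Tm.const _) (Tm.var 0) (Tm.const _))
        refine (exists_mk_iff hT).2 ?_
        refine hl.mono ?_ (hl.inf (hl.mono hba h1) (hl.mono (hdir x y) (hl.inf h1 (hl.inf h2 hy))))
        rw [inf_iSup_eq]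
        refine iSup_mono fun z => ?_
        rw [le_iff_ultra]
        intro lam hl hlam
        obtain ⟨h3, h4⟩ := hl.inf_iff.1 hlam
        obtain ⟨h5, h6⟩ := hl.inf_iff.1 h4
        obtain ⟨h7, h8⟩ := hl.inf_iff.1 h6
        exact hl.inf h5 ((TD.b1_iff hT).1 ⟨(rV_iff (hl := hl) h3).1 h7, (rV_iff (hl := hl) h3).1 h8⟩)
  -- meets the dense sets
  have hgm : ∀ v, E hl v (val hl (chkT W)) → ∀ d, App (E hl) (val hl f) v d → E hl d (val hl F) →
      ∃ x, E hl x (val hl g) ∧ E hl x d := by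
    refine forall_chkT (P := fun lam hl v => ∀ d, App (E hl) (val hl f) v d → E hl d (val hl F) →
      ∃ x, E hl x (val hl g) ∧ E hl x d) ?_ (a := b) ?_ hlam
    · refine TD.all (P := fun lam hl d v => App (E hl) (val hl f) (v 0) d → E hl d (val hl F) →
        ∃ x, E hl x (val hl g) ∧ E hl x d) (TD.imp (TD.app (Tm.const _) (Tm.var 1) (Tm.var 0))
          (TD.imp (TD.mem (Tm.var 0) (Tm.const _)) ?_))
      exact TD.ex (P := fun lam hl x v => E hl x (val hl g) ∧ E hl x (v 0))
        (TD.and (TD.mem (Tm.var 0) (Tm.const _)) (TD.mem (Tm.var 0) (Tm.var 1)))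
    · intro v lam hl hlam d hd hdF
      have h1 : ∃ x, E hl x (val hl g) ∧ ∀ d, App (E hl) (val hl f) (val hl (chk v)) d →
          E hl d (val hl F) → E hl x d := by
        refine (exists_mk_iff (tdDe f F v)).2 ?_
        refine hl.mono ?_ (hl.inf (hl.mono hba hlam) (hl.mono (hmeet v) hlam))
        rw [inf_iSup_eq]
        refine iSup_mono fun z => ?_
        rw [le_iff_ultra]
        intro lam hl hlam
        obtain ⟨h3, h4⟩ := hl.inf_iff.1 hlam
        obtain ⟨h5, h6⟩ := hl.inf_iff.1 h4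
        refine hl.inf h5 ?_
        rcases hl.sup_iff.1 h6 with h7 | h7
        · exact (hl.compl_iff.1 h7 h3).elim
        · exact h7
      obtain ⟨x, hx, hx'⟩ := h1
      exact ⟨x, hx, hx' d hd hdF⟩
  obtain ⟨⟨hy0, hrefl, htr⟩, _, hfun, hcov, _⟩ := ha lam hl (hl.mono hba hlam)
  -- the filter
  obtain ⟨q, hq⟩ := hZ.sep1 (P := fun y => ∃ x, E hl x (val hl g) ∧ App (E hl) (val hl R) x y)
    (Def.ex (Def.and (Def.mem (DefFun.var _) (DefFun.const _))
      (App.df (DefFun.const _) (DefFun.var _) (DefFun.var _)))) (val hl Y)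
  have hgq : ∀ x, E hl x (val hl g) → E hl x q := fun x hx =>
    (hq x).2 ⟨hgY x hx, x, hx, hrefl x (hgY x hx)⟩
  refine ⟨q, ⟨fun x hx => ((hq x).1 hx).1, ?_, ?_, ?_⟩, ?_⟩
  · obtain ⟨v⟩ : Nonempty W := inferInstance
    have htt : TD1 (D := D) fun _ _ _ => True := TD.tt
    have h1 : lam (⨆ x, G x ⊓ TD.b1 htt (t x)) := by
      refine hl.mono ?_ (hl.mono (hmeet v) hlam)
      refine iSup_mono fun x => inf_le_inf_left _ ?_
      rw [TD.le_b1 htt]
      intro _ _ _
      trivial
    obtain ⟨x, hx, _⟩ := (exists_mk_iff htt).2 h1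
    exact ⟨x, hgq x hx⟩
  · intro x y hx hy hxy
    obtain ⟨hxY, s, hs, hsx⟩ := (hq x).1 hx
    exact (hq y).2 ⟨hy, s, hs, htr _ _ _ (hgY s hs) hxY hy hsx hxy⟩
  · intro x y hx hy
    obtain ⟨hxY, s, hs, hsx⟩ := (hq x).1 hx
    obtain ⟨hyY, s', hs', hsy⟩ := (hq y).1 hy
    obtain ⟨z, hz, h1, h2⟩ := hgd s hs s' hs'
    exact ⟨z, hgq z hz, htr _ _ _ (hgY z hz) (hgY s hs) hxY h1 hsx,
      htr _ _ _ (hgY z hz) (hgY s' hs') hyY h2 hsy⟩
  · intro d hd
    obtain ⟨v, hv⟩ := hcov d hd
    obtain ⟨x, hx, hxd⟩ := hgm v (hfun.dom hZ hv) d hv hd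
    exact ⟨x, hgq x hx, hxd⟩

/-- Martin's axiom in the quotients -/
theorem ma1_X [Nontrivial D] (h : CoreMO W D) {lam : D → Prop} (hl : IsUF lam) : MA1 (E hl) := by
  intro w1 Y R F hw1 hP hC hcov hD
  obtain ⟨f, hf, hf'⟩ := hcov
  by_contra hno
  obtain rfl := eq_chkT h hw1
  have hinf : Infinite W := by
    obtain ⟨x⟩ := nonempty_W h
    have : Nonempty W := ⟨x⟩
    have : NoMaxOrder W := ⟨fun x => exists_gt' h x⟩
    exact NoMaxOrder.infinite
  obtain ⟨Y, rfl⟩ := exists_name Y
  obtain ⟨R, rfl⟩ := exists_name R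
  obtain ⟨F, rfl⟩ := exists_name F
  obtain ⟨f, rfl⟩ := exists_name f
  have t1 : TD0 (D := D) fun lam hl =>
      HypA (E hl) (val hl Y) (val hl R) (val hl F) (val hl f) (val hl (chkT W)) :=
    TD.fo5 (R := fun _ E a b c d e => HypA E a b c d e) (HypA.fo 0 1 2 3 4) (Tm.const _)
      (Tm.const _) (Tm.const _) (Tm.const _) (Tm.const _)
  have t2 : TD0 (D := D) fun lam hl => HasG (E hl) (val hl Y) (val hl R) (val hl F) :=
    TD.fo3 (R := fun _ E a b c => HasG E a b c) (HasG.fo 0 1 2) (Tm.const _) (Tm.const _)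
      (Tm.const _)
  have h1 : lam (TD.b0 t1) := (TD.b0_iff t1).1 ⟨hP, hC, hf, hf', hD⟩
  have h2 : lam (TD.b0 t2)ᶜ := hl.compl_iff.2 fun h => hno ((TD.b0_iff t2).2 h)
  have h0 : TD.b0 t1 ⊓ (TD.b0 t2)ᶜ ≠ ⊥ := fun h0 => hl.bot (h0 ▸ hl.inf h1 h2)
  obtain ⟨lam', hl', h3, h4⟩ := ma_aux h h0
    (fun lam hl hlam => (TD.b0_iff t1).2 (hl.mono inf_le_left hlam))
  exact hl'.compl_iff.1 (hl'.mono inf_le_right h3) ((TD.b0_iff t2).1 h4)

end

end MAOM
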