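import Pool.Agent.W_MP_3b51b4_h40.CHL5

/-!
# MP_3b51b4_gt : the CH lemma, and the clique given by a generic filter

`ch_lemma`: in the intermediate algebra there is an uncountable family `Y` of reals in `X` such that the preorder
`chR c U Y e` has the countable chain condition.
`clique_of_filter`: a filter for this preorder which meets the dense sets `deV` gives an uncountable clique.
-/

set_option autoImplicit false

universe u v

open Set BVM Cardinal

namespace MAO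

section
variable {W B : Type u} [LinearOrder W] [CompleteBooleanAlgebra B]

theorem infinite_of_reg (reg : ∀ g : ℕ → W → B, (∀ n x y, x ≠ y → g n x ⊓ g n y = ⊥) → ∀ c : B, c ≠ ⊥ →
    ∃ (b : B) (z : W), b ≠ ⊥ ∧ b ≤ c ∧ ∀ n x, z ≤ x → b ⊓ g n x = ⊥) [Nontrivial B] : Infinite W := by
  obtain ⟨_, w, _⟩ := reg (fun _ _ => ⊥) (fun _ _ _ _ => inf_bot_eq _) ⊤ top_ne_bot
  have : Nonempty W := ⟨w⟩
  have : NoMaxOrder W := ⟨fun x => gt_of_reg reg x⟩
  exact NoMaxOrder.infinite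

omit [LinearOrder W] in
/-- the coding of the points of the preorder -/
theorem exists_code [Infinite W] : Nonempty (W ≃ Finset (W × ℕ)) := by
  rw [← Cardinal.eq]
  have h1 : #(W × ℕ) = #W := by
    rw [Cardinal.mk_prod, Cardinal.lift_id', Cardinal.mk_nat, Cardinal.lift_aleph0]
    exact Cardinal.mul_aleph0_eq (Cardinal.aleph0_le_mk W)
  have : Infinite (W × ℕ) := inferInstance
  rw [Cardinal.mk_finset_of_infinite, h1]

open Classical in
/-- the dense sets -/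
noncomputable def deV (U : List Bool → List Bool → B) (Y : W → ℕ → B) (e : W → Finset (W × ℕ))
    (ξ x : W) : B :=
  if ∃ n, (ξ, n) ∈ e x then vlV U Y (e x) else ⊥

theorem lam_deV {lam : B → Prop} (hl : IsUF lam) {U : List Bool → List Bool → B} {Y : W → ℕ → B}
    {e : W → Finset (W × ℕ)} {ξ x : W} : lam (deV U Y e ξ x) ↔
      (∃ n, (ξ, n) ∈ e x) ∧ lam (vlV U Y (e x)) := by
  classical
  unfold deV
  by_cases h : ∃ n, (ξ, n) ∈ e x
  · rw [if_pos h]
    exact ⟨fun h1 => ⟨h, h1⟩, fun h1 => h1.2⟩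
  · rw [if_neg h]
    exact ⟨fun h1 => (hl.bot h1).elim, fun h1 => (h h1.1).elim⟩

theorem dense_deV (c : B) (U : List Bool → List Bool → B) (Y : W → ℕ → B) (e : W ≃ Finset (W × ℕ))
    (ξ x : W) : (⨆ y, deV U Y e ξ y ⊓ chR c U Y e y x) = ⊤ := by
  classical
  rw [eq_top_iff, le_iff_ultra]
  intro lam hl _
  by_cases h : lam (vlV U Y (e x))
  · -- a new colour
    obtain ⟨k, hk⟩ := Infinite.exists_notMem_finset ((e x).image Prod.snd)
    have h1 : e (e.symm (insert (ξ, k) (e x))) = insert (ξ, k) (e x) := Equiv.apply_symm_apply _ _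
    have h2 : lam (vlV U Y (insert (ξ, k) (e x))) := by
      rw [lam_vlV hl] at h ⊢
      intro a ha b hb hab hne
      rcases Finset.mem_insert.1 ha with rfl | ha'
      · rcases Finset.mem_insert.1 hb with rfl | hb'
        · exact (hne rfl).elim
        · exact (hk (Finset.mem_image.2 ⟨b, hb', hab.symm⟩)).elim
      · rcases Finset.mem_insert.1 hb with rfl | hb'
        · exact (hk (Finset.mem_image.2 ⟨a, ha', hab⟩)).elim
        · exact h a ha' b hb' hab hne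
    refine hl.mono (le_iSup (fun y => deV U Y e ξ y ⊓ chR c U Y e y x)
      (e.symm (insert (ξ, k) (e x)))) (hl.inf ((lam_deV hl).2 ?_) ((lam_chR hl).2 fun _ _ => ?_))
    · rw [h1]
      exact ⟨⟨k, Finset.mem_insert_self _ _⟩, h2⟩
    · rw [h1]
      exact ⟨Finset.subset_insert _ _, h2⟩
  · have h1 : e (e.symm {(ξ, 0)}) = {(ξ, 0)} := Equiv.apply_symm_apply _ _
    refine hl.mono (le_iSup (fun y => deV U Y e ξ y ⊓ chR c U Y e y x)
      (e.symm {(ξ, 0)})) (hl.inf ((lam_deV hl).2 ?_) ((lam_chR hl).2 fun _ h2 => (h h2).elim))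
    rw [h1]
    refine ⟨⟨0, Finset.mem_singleton_self _⟩, ?_⟩
    rw [lam_vlV hl]
    intro a ha b hb hab hne
    rw [Finset.mem_singleton] at ha hb
    rw [ha, hb] at hne
    exact (hne rfl).elim

/-- The CH lemma. -/
theorem ch_lemma [WellFoundedLT W] [Nontrivial B] (h : ChB W B) {X : (ℕ → B) → B}
    (hX : ∀ x y, X x ⊓ eqV x y ≤ X y) {U : List Bool → List Bool → B} (hU : CodeV U) {c : B}
    (hno : ∀ b : B, b ≠ ⊥ → b ≤ c → ∀ T : ℕ → List Bool → B,
      (∀ n s t, b ⊓ (T n s ⊓ T n t ⊓ U s t) = ⊥) →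
        ∃ x : ℕ → B, b ⊓ (X x ⊓ ⨅ n, (brV (T n) x)ᶜ) ≠ ⊥) (e : W ≃ Finset (W × ℕ)) :
    ∃ Y : W → ℕ → B, (∀ ξ, c ≤ X (Y ξ)) ∧ PreV (chR c U Y e) ∧ CccV (chR c U Y e) := by
  obtain ⟨z, hz⟩ := exists_enum h
  obtain ⟨Y, hY⟩ := exists_avd h.seg hX z hno
  exact ⟨Y, hY.mem, preV_chR _ _ _ _, cccV_chR h hU hz hY e⟩

/-- A generic filter gives an uncountable clique. -/
theorem clique_of_filter [WellFoundedLT W] (reg : ∀ g : ℕ → W → B,
    (∀ n x y, x ≠ y → g n x ⊓ g n y = ⊥) → ∀ c : B, c ≠ ⊥ →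
      ∃ (b : B) (z : W), b ≠ ⊥ ∧ b ≤ c ∧ ∀ n x, z ≤ x → b ⊓ g n x = ⊥)
    {c b : B} {U : List Bool → List Bool → B} {Y : W → ℕ → B} {e : W → Finset (W × ℕ)}
    (hb : b ≠ ⊥) (hbc : b ≤ c) {G : W → B}
    (hdir : ∀ x y, b ⊓ (G x ⊓ G y) ≤ ⨆ z, G z ⊓ (chR c U Y e z x ⊓ chR c U Y e z y))
    (hmeet : ∀ ξ, b ≤ ⨆ x, G x ⊓ deV U Y e ξ x) :
    ∃ (b' : B) (Z : W → B), b' ≠ ⊥ ∧ b' ≤ b ∧ (∀ z, b' ≤ ⨆ a : Ici z, Z a.1) ∧
      ∀ a a', a ≠ a' → b' ⊓ (Z a ⊓ Z a') ≤ opV U (Y a) (Y a') := by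
  classical
  let Z : ℕ → W → B := fun n ξ => ⨆ x : {x // (ξ, n) ∈ e x}, G x.1 ⊓ vlV U Y (e x.1)
  have hunb : Unb id (fun _ : W => (⊤ : B)) b := fun δ =>
    le_trans le_top (le_iSup_of_le (⟨δ, le_rfl⟩ : {j // δ ≤ id j}) le_rfl)
  obtain ⟨n, b', hb', hbb, hZ⟩ := hunb.pigeon reg hb Z (by
    intro ξ
    refine (inf_le_left.trans (hmeet ξ)).trans (iSup_le fun x => ?_)
    by_cases hx : ∃ n, (ξ, n) ∈ e x
    · obtain ⟨n, hn⟩ := hx
      refine le_iSup_of_le n (le_iSup_of_le (⟨x, hn⟩ : {x // (ξ, n) ∈ e x}) ?_)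
      refine inf_le_inf_left _ ?_
      unfold deV
      rw [if_pos ⟨n, hn⟩]
    · unfold deV
      rw [if_neg hx, inf_bot_eq]
      exact bot_le)
  refine ⟨b', Z n, hb', hbb, fun z => ?_, fun a a' haa => ?_⟩
  · refine (hZ z).trans (iSup_mono fun j => inf_le_right)
  · rw [iSup_inf_eq, inf_iSup_eq]
    refine iSup_le fun xx => ?_
    rw [inf_iSup_eq, inf_iSup_eq]
    refine iSup_le fun xx' => ?_
    obtain ⟨x, hx⟩ := xx
    obtain ⟨x', hx'⟩ := xx'
    dsimp only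
    have h1 : b' ⊓ (G x ⊓ vlV U Y (e x) ⊓ (G x' ⊓ vlV U Y (e x'))) ≤
        (⨆ z, G z ⊓ (chR c U Y e z x ⊓ chR c U Y e z x')) ⊓
          (b' ⊓ (vlV U Y (e x) ⊓ vlV U Y (e x'))) := by
      refine le_inf (le_trans ?_ (hdir x x')) (inf_le_inf_left _ (inf_le_inf inf_le_right inf_le_right))
      exact inf_le_inf hbb (inf_le_inf inf_le_left inf_le_left)
    refine h1.trans ?_
    rw [iSup_inf_eq]
    refine iSup_le fun z => ?_
    rw [le_iff_ultra]
    intro lam hl hlam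
    obtain ⟨h2, h3⟩ := hl.inf_iff.1 hlam
    obtain ⟨h4, h5⟩ := hl.inf_iff.1 h2
    obtain ⟨h6, h7⟩ := hl.inf_iff.1 h5
    obtain ⟨h8, h9⟩ := hl.inf_iff.1 h3
    obtain ⟨h10, h11⟩ := hl.inf_iff.1 h9
    have hc := hl.mono (hbb.trans hbc) h8
    obtain ⟨h12, h13⟩ := (lam_chR hl).1 h6 hc h10
    obtain ⟨h14, _⟩ := (lam_chR hl).1 h7 hc h11
    exact (lam_vlV hl).1 h13 _ (h12 hx) _ (h14 hx') rfl haa

end

/-! ### Complete embeddings -/

section emb
variable {W B D : Type u} [LinearOrder W] [CompleteBooleanAlgebra B] [CompleteBooleanAlgebra D]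

/-- `i` is a complete embedding -/
structure CEmb (i : B → D) : Prop where
  compl : ∀ a, i aᶜ = (i a)ᶜ
  iSup : ∀ {ι : Type u} (f : ι → B), i (⨆ a, f a) = ⨆ a, i (f a)
  ne_bot : ∀ a, a ≠ ⊥ → i a ≠ ⊥

variable {i : B → D} (hi : CEmb i)
include hi

theorem CEmb.iSup' {ι : Type*} (f : ι → B) : i (⨆ a, f a) = ⨆ a, i (f a) := by
  have h1 : (⨆ a, f a) = ⨆ b : Set.range f, b.1 := (iSup_range' (fun b => b) f).symm
  have h2 : (⨆ a, i (f a)) = ⨆ b : Set.range f, i b.1 := (iSup_range' (fun b => i b) f).symm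
  rw [h1, h2, hi.iSup]

theorem CEmb.iInf' {ι : Type*} (f : ι → B) : i (⨅ a, f a) = ⨅ a, i (f a) := by
  have h1 : (⨅ a, f a) = (⨆ a, (f a)ᶜ)ᶜ := by
    rw [compl_iSup]
    exact iInf_congr fun a => (compl_compl _).symm
  rw [h1, hi.compl, hi.iSup', compl_iSup]
  exact iInf_congr fun a => by rw [hi.compl, compl_compl]

theorem CEmb.sup (a b : B) : i (a ⊔ b) = i a ⊔ i b := by
  rw [sup_eq_iSup, hi.iSup', sup_eq_iSup]
  exact iSup_congr fun c => by cases c <;> rfl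

theorem CEmb.inf (a b : B) : i (a ⊓ b) = i a ⊓ i b := by
  rw [inf_eq_iInf, hi.iInf', inf_eq_iInf]
  exact iInf_congr fun c => by cases c <;> rfl

theorem CEmb.bot : i ⊥ = ⊥ := by
  rw [← iSup_of_empty (fun a : PEmpty.{u+1} => (⊥ : B)), hi.iSup, iSup_of_empty]

theorem CEmb.top : i ⊤ = ⊤ := by
  rw [← compl_bot, hi.compl, hi.bot, compl_bot]

theorem CEmb.mono {a b : B} (h : a ≤ b) : i a ≤ i b := by
  rw [← sup_eq_right.2 h, hi.sup]
  exact le_sup_left

theorem CEmb.iniV (s : List Bool) (x : ℕ → B) : i (iniV s x) = MAO.iniV s (fun n => i (x n)) := by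
  unfold MAO.iniV
  rw [hi.iInf']
  refine iInf_congr fun j => ?_
  split_ifs with h
  · rfl
  · rw [hi.compl]

theorem CEmb.opV (U : List Bool → List Bool → B) (x y : ℕ → B) :
    i (opV U x y) = MAO.opV (fun s t => i (U s t)) (fun n => i (x n)) (fun n => i (y n)) := by
  unfold MAO.opV
  rw [hi.iSup']
  refine iSup_congr fun s => ?_
  rw [hi.iSup']
  refine iSup_congr fun t => ?_
  rw [hi.inf, hi.inf, hi.iniV, hi.iniV]

theorem CEmb.vlV (U : List Bool → List Bool → B) (Y : W → ℕ → B) (p : Finset (W × ℕ)) :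
    i (vlV U Y p) = MAO.vlV (fun s t => i (U s t)) (fun ξ n => i (Y ξ n)) p := by
  unfold MAO.vlV
  rw [hi.iInf']
  refine iInf_congr fun ab => ?_
  split_ifs with h
  · rw [hi.opV]
  · rw [hi.top]

theorem CEmb.chR (c : B) (U : List Bool → List Bool → B) (Y : W → ℕ → B) (e : W → Finset (W × ℕ))
    (x y : W) : i (chR c U Y e x y) =
      MAO.chR (i c) (fun s t => i (U s t)) (fun ξ n => i (Y ξ n)) e x y := by
  unfold MAO.chR
  rw [hi.sup, hi.sup, hi.compl, hi.compl, hi.vlV]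
  split_ifs with h
  · rw [hi.vlV]
  · rw [hi.bot]

theorem CEmb.deV (U : List Bool → List Bool → B) (Y : W → ℕ → B) (e : W → Finset (W × ℕ))
    (ξ x : W) : i (deV U Y e ξ x) =
      MAO.deV (fun s t => i (U s t)) (fun ξ n => i (Y ξ n)) e ξ x := by
  unfold MAO.deV
  split_ifs with h
  · rw [hi.vlV]
  · rw [hi.bot]

theorem CEmb.codeV {U : List Bool → List Bool → B} (hU : CodeV U) :
    CodeV fun s t => i (U s t) := by
  constructor
  · intro s t
    rw [hU.symm]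
  · intro s
    rw [hU.irr, hi.bot]
  · intro s t hst
    rw [hU.len s t hst, hi.bot]
  · intro s t s' t' h1 h2 h3 h4
    exact hi.mono (hU.mono s t s' t' h1 h2 h3 h4)

end emb

end MAO
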