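import Pool.Agent.W_315f31_h40.Final0
import Pool.Agent.W_MP_960bf8_h40.Tools
import Pool.Agent.W_MP_3b51b4_h40.StmtMO
import Pool.Agent.W_MP_3b51b4_h40.CoreMO

/-!
# MP_3b51b4_gt : countable families of names, `ω₁` of the model
-/

set_option autoImplicit false

universe u

open Cardinal Set HESR IM.BSet DCM
open IM (BSet)

namespace MAOM

open BVM MAO

section
variable {W D : Type u} [LinearOrder W] [CompleteBooleanAlgebra D]

theorem tdCtb (t : BSet D) : TD1 (D := D) fun lam hl f => IsFun (E hl) f (val hl omB) ∧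
    ∀ y, E hl y (val hl t) → ∃ x, App (E hl) f x y := by
  refine TD.and (TD.isFun (Tm.var 0) (Tm.const _)) ?_
  refine TD.all (P := fun lam hl y v => E hl y (val hl t) → ∃ x, App (E hl) (v 0) x y) ?_
  refine TD.imp (TD.mem (Tm.var 0) (Tm.const _)) ?_
  exact TD.ex (P := fun lam hl x v => App (E hl) (v 1) x (v 0))
    (TD.app (Tm.var 2) (Tm.var 0) (Tm.var 1))

/-- If the set `{t x | x ∈ A}` is countable, and `t` is injective on `A`, then `A` is bounded. -/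
theorem bdd_of_ctb (h : CoreMO W D) {A : W → D} {t : W → BSet D} {c : D} (hc : c ≠ ⊥)
    (hinj : ∀ x y, x ≠ y → c ⊓ (A x ⊓ A y ⊓ beq (t x) (t y)) = ⊥)
    (hctb : ∀ (lam : D → Prop) (hl : IsUF lam), lam c → IsCtb (E hl) (val hl (mk W t A))) :
    ∃ (b : D) (z : W), b ≠ ⊥ ∧ b ≤ c ∧ ∀ x, z ≤ x → b ⊓ A x = ⊥ := by
  obtain ⟨F, hF⟩ := TD.exists_name (tdCtb (mk W t A))
  have hF' : ∀ (lam : D → Prop) (hl : IsUF lam), lam c → IsFun (E hl) (val hl F) (val hl omB) ∧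
      ∀ y, E hl y (val hl (mk W t A)) → ∃ x, App (E hl) (val hl F) x y := by
    intro lam hl hlam
    obtain ⟨w, hw, f, hf, hf'⟩ := hctb lam hl hlam
    rw [eq_omB hw] at hf
    exact hF lam hl f ⟨hf, hf'⟩
  obtain ⟨b, z, hb0, hbc, hb⟩ := h.reg (fun n x => c ⊓ (A x ⊓ apw F (natB n) (t x))) (by
    intro n x y hxy
    rw [eq_bot_iff_ultra]
    intro lam hl hlam
    obtain ⟨h1, h2⟩ := hl.inf_iff.1 hlam
    obtain ⟨h3, h4⟩ := hl.inf_iff.1 h1
    obtain ⟨h5, h6⟩ := hl.inf_iff.1 h4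
    obtain ⟨_, h7⟩ := hl.inf_iff.1 h2
    obtain ⟨h8, h9⟩ := hl.inf_iff.1 h7
    have h10 := (hF' lam hl h3).1.val (zfc hl) (apw_iff.2 h6) (apw_iff.2 h9)
    exact hl.bot (hinj x y hxy ▸ hl.inf h3 (hl.inf (hl.inf h5 h8) (val_eq.1 h10)))) c hc
  refine ⟨b, z, hb0, hbc, fun x hx => ?_⟩
  rw [eq_bot_iff_ultra]
  intro lam hl hlam
  obtain ⟨h1, h2⟩ := hl.inf_iff.1 hlam
  obtain ⟨h3, h4⟩ := hF' lam hl (hl.mono hbc h1)
  obtain ⟨n, hn⟩ := h4 _ (E_mk_of (f := t) (w := A) x h2)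
  have h5 := (exists_omB_iff (tdA (F := F) (y := t x)) (hl := hl)).1 ⟨n, h3.dom (zfc hl) hn, hn⟩
  simp only [b1_tdA] at h5
  refine hl.bot (hl.mono ?_ (hl.inf hlam h5))
  rw [inf_iSup_eq]
  refine iSup_le fun n => ?_
  rw [← hb n x hx]
  refine le_inf (inf_le_left.trans inf_le_left) (le_inf (inf_le_left.trans (inf_le_left.trans hbc)) ?_)
  exact inf_le_inf_right _ inf_le_right

/-- `W` has no last element -/
theorem exists_gt' [Nontrivial D] (h : CoreMO W D) (x : W) : ∃ y, x < y := by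
  classical
  obtain ⟨b, z, hb0, _, hb⟩ := h.reg (fun _ y => if y = x then ⊤ else ⊥) (by
    intro n a a' haa
    by_cases h1 : a = x
    · rw [if_neg (fun h2 : a' = x => haa (h1.trans h2.symm)), inf_bot_eq]
    · rw [if_neg h1, bot_inf_eq]) ⊤ top_ne_bot
  refine ⟨z, lt_of_not_ge fun hzx => hb0 ?_⟩
  have h1 := hb 0 x hzx
  rwa [if_pos rfl, inf_top_eq] at h1

/-- `W` is not empty -/
theorem nonempty_W [Nontrivial D] (h : CoreMO W D) : Nonempty W := by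
  obtain ⟨b, z, _⟩ := h.reg (fun _ _ => ⊥) (fun _ _ _ _ => by rw [inf_bot_eq]) ⊤ top_ne_bot
  exact ⟨z⟩

variable [WellFoundedLT W]

/-- `chkT W` is `ω₁` -/
theorem isOm1_W (h : CoreMO W D) {lam : D → Prop} (hl : IsUF lam) :
    IsOm1 (E hl) (val hl (chkT W : BSet D)) := by
  refine ⟨isOrd_chkT, fun hc => ?_, ?_⟩
  · have hT : TD0 (D := D) fun lam hl => IsCtb (E hl) (val hl (chkT W)) := TD.isCtb (Tm.const _)
    have hlc := (TD.b0_iff hT).1 hc
    have hc0 : TD.b0 hT ≠ ⊥ := fun h0 => hl.bot (h0 ▸ hlc)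
    obtain ⟨b, z, hb0, _, hb⟩ := bdd_of_ctb h (A := fun _ => (⊤ : D)) (t := fun w : W => chk w) hc0
      (fun x y hxy => by rw [beq_chk_ne hxy, inf_bot_eq, inf_bot_eq])
      (fun lam hl hlam => (TD.b0_iff hT).2 hlam)
    exact hb0 (by simpa using hb z le_rfl)
  · refine forall_chkT (P := fun lam hl x => IsCtb (E hl) x) (TD.isCtb (Tm.var 0)) (a := ⊤) ?_ hl.top
    intro w lam hl _
    have : Countable (Iio w) := (h.seg w).to_subtype
    refine ⟨_, isOmega_omB, ?_⟩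
    rw [chk_eq w]
    exact cov_ctbl _ hl

/-- `ω₁` is `chkT W` -/
theorem eq_chkT (h : CoreMO W D) {lam : D → Prop} {hl : IsUF lam} {w1 : X hl}
    (hw : IsOm1 (E hl) w1) : w1 = val hl (chkT W) :=
  IsOm1.uniq (zfc hl) hw (isOm1_W h hl)

end

end MAOM
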